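import Pool.Agent.Lib.MP_634427_lc.LT.WModel

/-!
# Turing reductions with few blocks of negative answers, and a Boolean combination of few votes
-/

namespace Pool.Agent.Lib.MP_634427_lc

/-- A bound that is polynomial in `t` of a polynomial. -/
def bound (t : ℕ → ℕ) (c n : ℕ) : ℕ := t (n ^ c + c) ^ c

/-- `A` is reducible to `S` by a polynomial-time vote reduction. From the input `x` and the list of
the answers received so far one computes in polynomial time whether the adaptive phase stops
(`stop`), the next query (`query`), and, when it stops, a list of votes (`vote`). With oracle `S`
the adaptive phase stops after at most `|x| ^ c + c` queries; let `l` be the list of the answers.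
Then `x ∈ A` if and only if the evaluator `out` accepts `x`, `l` and the list of the outcomes of
the votes. A vote is a list of bundles of words with integer weights in binary (a sign and a list of
digits), and it is won if the sum of the weights of the bundles that lie entirely in `S` is
positive. Let `T = t (|x| ^ c + c) ^ c`. There are at most `T` blocks of negative answers
(consecutive negative answers to queries in `0*` form one block; every other negative answer is a
block of its own) and at most `T` votes, with bundles of at most `T` words and weights with at most
`T` digits (the number of bundles is not restricted). -/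
def VoteReducible (t : ℕ → ℕ) (A S : Set Word) : Prop :=
  ∃ (stop : Word × List Bool → Bool) (query : Word × List Bool → Word)
    (vote : Word × List Bool → List (List ((Bool × List Bool) × List Word)))
    (out : (Word × List Bool) × List Bool → Bool) (c : ℕ),
    PT stop ∧ PT query ∧ PT vote ∧ PT out ∧
    ∀ x, ∃ l, l = answers S (fun l => stop (x, l)) (fun l => query (x, l)) (x.length ^ c + c) ∧
      stop (x, l) = true ∧ noBlocks (fun l => query (x, l)) l ≤ bound t c x.length ∧
      (vote (x, l)).length ≤ bound t c x.length ∧
      (∀ v ∈ vote (x, l), ∀ e ∈ v, e.2.length ≤ bound t c x.length ∧
        e.1.2.length ≤ bound t c x.length) ∧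
      (x ∈ A ↔ out ((x, l), (vote (x, l)).map fun v => decide (0 < votes S v)) = true)

/-- `L` can be decided with one-sided error in time `2 ^ (t (n ^ d + d) ^ d)` with polynomially
many random bits, for some `d`: there is a polynomial-time function `V` of the input `x`, a random
string of length `|x| ^ c + c`, and a list of `2 ^ (t (|x| ^ d + d) ^ d)` zeros, such that for
`x ∈ L` at least half of the random strings are accepted, for `x ∉ L` none is. -/
def InRTime (t : ℕ → ℕ) (L : Set Word) : Prop :=
  ∃ (V : (Word × Word) × Word → Bool) (c d : ℕ), PT V ∧ ∀ x,
    (x ∈ L → 2 ^ (x.length ^ c + c) ≤
      2 * Nat.card {y : Fin (x.length ^ c + c) → Bool //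
        V ((x, List.ofFn y), List.replicate (2 ^ bound t d x.length) false) = true}) ∧
    (x ∉ L → ∀ y : Fin (x.length ^ c + c) → Bool,
      V ((x, List.ofFn y), List.replicate (2 ^ bound t d x.length) false) = false)

end Pool.Agent.Lib.MP_634427_lc
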