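import Pool.Agent.Lib.MP_634427_lc.Final
import Pool.Agent.Lib.MP_634427_lc.Votes.Model

/-!
# Products of signed lists of bundles; the sign of a Boolean combination of votes
-/

namespace Pool.Agent.Lib.MP_634427_lc.Votes

open BT

/-- signed lists of bundles -/
abbrev Vec := SVec (List Word)

/-- product of two signed lists of bundles -/
def mulV (v w : Vec) : Vec := v.flatMap fun e => w.map fun e' => (e.1 == e'.1, e.2 ++ e'.2)

/-- product with a cap for the length -/
def prodC (M : ℕ) (L : List Vec) : Vec :=
  L.foldr (fun v acc => if v.length * acc.length ≤ M then mulV v acc else []) [(true, [])]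

lemma length_mulV (v w : Vec) : (mulV v w).length = v.length * w.length := by
  induction v with
  | nil => simp [mulV]
  | cons e v ih =>
    simp only [mulV, List.flatMap_cons, List.length_append, List.length_map, List.length_cons] at ih ⊢
    rw [ih]; ring

lemma mem_mulV {v w : Vec} {x : Bool × List Word} :
    x ∈ mulV v w ↔ ∃ e ∈ v, ∃ e' ∈ w, x = (e.1 == e'.1, e.2 ++ e'.2) := by
  simp only [mulV, List.mem_flatMap, List.mem_map]
  constructor
  · rintro ⟨e, he, e', he', rfl⟩
    exact ⟨e, he, e', he', rfl⟩
  · rintro ⟨e, he, e', he', rfl⟩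
    exact ⟨e, he, e', he', rfl⟩

section sc

variable (S : Set Word)

/-- the number of positive minus the number of negative bundles inside `S` -/
noncomputable def sc (v : Vec) : ℤ := score (fun Q => ∀ w ∈ Q, w ∈ S) v

lemma sc_nil : sc S [] = 0 := by simp [sc, score]

open Classical in
lemma sc_cons (e : Bool × List Word) (v : Vec) :
    sc S (e :: v) = (if ∀ w ∈ e.2, w ∈ S then sgn e.1 else 0) + sc S v := by
  rw [sc, score_cons, sc]
  congr

lemma sc_append (v w : Vec) : sc S (v ++ w) = sc S v + sc S w := score_append _ _ _

lemma sgn_beq (a b : Bool) : sgn (a == b) = sgn a * sgn b := by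
  cases a <;> cases b <;> simp [sgn]

lemma sc_map (e : Bool × List Word) (w : Vec) :
    sc S (w.map fun e' => (e.1 == e'.1, e.2 ++ e'.2)) =
      (open Classical in if ∀ u ∈ e.2, u ∈ S then sgn e.1 else 0) * sc S w := by
  classical
  induction w with
  | nil => simp [sc_nil]
  | cons e' w ih =>
    rw [List.map_cons, sc_cons, sc_cons, ih, mul_add]
    congr 1
    have h : (∀ u ∈ e.2 ++ e'.2, u ∈ S) ↔ (∀ u ∈ e.2, u ∈ S) ∧ ∀ u ∈ e'.2, u ∈ S := by
      simp only [List.mem_append]
      exact ⟨fun h => ⟨fun u hu => h u (Or.inl hu), fun u hu => h u (Or.inr hu)⟩,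
        fun h u hu => hu.elim (h.1 u) (h.2 u)⟩
    by_cases h1 : ∀ u ∈ e.2, u ∈ S
    · by_cases h2 : ∀ u ∈ e'.2, u ∈ S
      · rw [if_pos (h.2 ⟨h1, h2⟩), if_pos h1, if_pos h2, sgn_beq]
      · rw [if_neg (fun h' => h2 (h.1 h').2), if_neg h2, mul_zero]
    · rw [if_neg (fun h' => h1 (h.1 h').1), if_neg h1, zero_mul]

lemma sc_mulV (v w : Vec) : sc S (mulV v w) = sc S v * sc S w := by
  induction v with
  | nil => simp [mulV, sc_nil]
  | cons e v ih =>
    have h : mulV (e :: v) w = (w.map fun e' => (e.1 == e'.1, e.2 ++ e'.2)) ++ mulV v w := by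
      simp [mulV]
    rw [h, sc_append, sc_map, ih, sc_cons, add_mul]

lemma sc_replicate (n : ℕ) (b : Bool) : sc S (List.replicate n (b, [])) = sgn b * n := by
  induction n with
  | zero => simp [sc_nil]
  | succ n ih =>
    rw [List.replicate_succ, sc_cons, ih]
    simp
    ring

lemma sc_flatMap {ι : Type} (l : List ι) (f : ι → Vec) :
    sc S (l.flatMap f) = (l.map fun i => sc S (f i)).sum := by
  induction l with
  | nil => simp [sc_nil]
  | cons i l ih => rw [List.flatMap_cons, sc_append, ih, List.map_cons, List.sum_cons]

lemma abs_sc_le (v : Vec) : |sc S v| ≤ v.length := by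
  classical
  induction v with
  | nil => simp [sc_nil]
  | cons e v ih =>
    rw [sc_cons]
    refine (abs_add_le _ _).trans ?_
    have h : |if ∀ w ∈ e.2, w ∈ S then sgn e.1 else 0| ≤ 1 := by
      split_ifs
      · cases e.1 <;> simp [sgn]
      · simp
    push_cast [List.length_cons]
    linarith

end sc

/-! ### The product of a list -/

lemma length_prodC_le (M : ℕ) (L : List Vec) : (prodC M L).length ≤ M + 1 := by
  cases L with
  | nil => simp [prodC]
  | cons v L =>
    unfold prodC
    rw [List.foldr_cons]
    split_ifs with h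
    · rw [length_mulV]; omega
    · simp

/-- the product of the lengths -/
def lens (L : List Vec) : ℕ := (L.map List.length).prod

lemma lens_nil : lens [] = 1 := rfl
lemma lens_cons (v : Vec) (L : List Vec) : lens (v :: L) = v.length * lens L := by
  simp [lens]

lemma prodC_spec {M : ℕ} {L : List Vec} (h1 : ∀ v ∈ L, 1 ≤ v.length) (h2 : lens L ≤ M) :
    (prodC M L).length = lens L ∧ ∀ S, sc S (prodC M L) = (L.map (sc S)).prod := by
  induction L with
  | nil =>
    refine ⟨rfl, fun S => ?_⟩
    show sc S [(true, [])] = 1
    rw [sc_cons, sc_nil]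
    simp [sgn]
  | cons v L ih =>
    rw [lens_cons] at h2
    have hv : 1 ≤ v.length := h1 v List.mem_cons_self
    have hL : lens L ≤ M := le_trans (Nat.le_mul_of_pos_left _ hv) h2
    obtain ⟨h3, h4⟩ := ih (fun w hw => h1 w (List.mem_cons_of_mem _ hw)) hL
    have h5 : prodC M (v :: L) = mulV v (prodC M L) := by
      show (if v.length * (prodC M L).length ≤ M then mulV v (prodC M L) else []) = _
      rw [h3, if_pos h2]
    refine ⟨?_, fun S => ?_⟩
    · rw [h5, length_mulV, h3, lens_cons]
    · rw [h5, sc_mulV, h4, List.map_cons, List.prod_cons]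

lemma mem_prodC_length {M d : ℕ} {L : List Vec} (h : ∀ v ∈ L, ∀ e ∈ v, e.2.length ≤ d) :
    ∀ e ∈ prodC M L, e.2.length ≤ L.length * d := by
  induction L with
  | nil =>
    intro e he
    have : e = (true, []) := by simpa [prodC] using he
    rw [this]; simp
  | cons v L ih =>
    intro e he
    have he' : e ∈ (if v.length * (prodC M L).length ≤ M then mulV v (prodC M L) else []) := he
    split_ifs at he' with h1
    · obtain ⟨a, ha, b, hb, rfl⟩ := mem_mulV.1 he'
      have h2 := h v List.mem_cons_self a ha
      have h3 := ih (fun w hw => h w (List.mem_cons_of_mem _ hw)) b hb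
      simp only [List.length_append, List.length_cons]
      rw [Nat.succ_mul]
      omega
    · simp at he'

lemma mem_prodC_word {M : ℕ} {L : List Vec} :
    ∀ e ∈ prodC M L, ∀ w ∈ e.2, ∃ v ∈ L, ∃ e' ∈ v, w ∈ e'.2 := by
  induction L with
  | nil =>
    intro e he w hw
    have : e = (true, []) := by simpa [prodC] using he
    rw [this] at hw; simp at hw
  | cons v L ih =>
    intro e he w hw
    have he' : e ∈ (if v.length * (prodC M L).length ≤ M then mulV v (prodC M L) else []) := he
    split_ifs at he' with h1
    · obtain ⟨a, ha, b, hb, rfl⟩ := mem_mulV.1 he'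
      rcases List.mem_append.1 hw with hw | hw
      · exact ⟨v, List.mem_cons_self, a, ha, hw⟩
      · obtain ⟨v', h1, h2⟩ := ih b hb w hw
        exact ⟨v', List.mem_cons_of_mem _ h1, h2⟩
    · simp at he'

lemma sz_mem_prodC {M : ℕ} {L : List Vec} : ∀ e ∈ prodC M L, sz e.2 ≤ sz L := by
  induction L with
  | nil =>
    intro e he
    have : e = (true, []) := by simpa [prodC] using he
    rw [this]; simp
  | cons v L ih =>
    intro e he
    have he' : e ∈ (if v.length * (prodC M L).length ≤ M then mulV v (prodC M L) else []) := he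
    split_ifs at he' with h1
    · obtain ⟨a, ha, b, hb, rfl⟩ := mem_mulV.1 he'
      have h2 := ih b hb
      have h3 := sz_mem_le ha
      rw [sz_prod] at h3
      simp only [sz_append, sz_cons]
      omega
    · simp at he'

/-! ### Lists of Boolean lists -/

/-- all Boolean lists of length `k` -/
def bools : ℕ → List (List Bool)
  | 0 => [[]]
  | k + 1 => (bools k).flatMap fun l => [false :: l, true :: l]

lemma length_bools (k : ℕ) : (bools k).length = 2 ^ k := by
  induction k with
  | zero => rfl
  | succ k ih =>
    have : ∀ l : List (List Bool), (l.flatMap fun l => [false :: l, true :: l]).length =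
        2 * l.length := by
      intro l
      induction l with
      | nil => rfl
      | cons a l ih => simp only [List.flatMap_cons, List.length_append, List.length_cons,
          List.length_nil, ih]; omega
    rw [bools, this, ih, pow_succ]; ring

lemma mem_bools {k : ℕ} {l : List Bool} : l ∈ bools k ↔ l.length = k := by
  induction k generalizing l with
  | zero => simp [bools]
  | succ k ih =>
    simp only [bools, List.mem_flatMap, List.mem_cons, List.not_mem_nil, or_false]
    constructor
    · rintro ⟨l', h1, rfl | rfl⟩ <;> simp [ih.1 h1]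
    · intro h
      rcases l with _ | ⟨b, l⟩
      · simp at h
      · refine ⟨l, ih.2 (by simpa using h), ?_⟩
        cases b <;> simp

lemma nodup_bools (k : ℕ) : (bools k).Nodup := by
  induction k with
  | zero => simp [bools]
  | succ k ih =>
    rw [bools, List.nodup_flatMap]
    refine ⟨fun l _ => by simp, ?_⟩
    refine ih.imp ?_
    intro a b hab
    simp only [Function.onFun, List.disjoint_cons_left, List.mem_cons, List.cons.injEq,
      List.not_mem_nil, or_false]
    simp [hab]

/-- all Boolean lists of length `k`, with a cap for the number -/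
def boolsC (M k : ℕ) : List (List Bool) :=
  Nat.rec (motive := fun _ => List (List Bool)) [[]]
    (fun _ L => if 2 * L.length ≤ M then L.flatMap fun l => [false :: l, true :: l] else []) k

lemma boolsC_succ (M k : ℕ) : boolsC M (k + 1) = if 2 * (boolsC M k).length ≤ M then
    (boolsC M k).flatMap fun l => [false :: l, true :: l] else [] := rfl

lemma boolsC_eq {M k : ℕ} (h : 2 ^ k ≤ M) : boolsC M k = bools k := by
  induction k with
  | zero => rfl
  | succ k ih =>
    have h1 : 2 ^ k ≤ M := le_trans (Nat.pow_le_pow_right (by omega) (by omega)) h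
    rw [boolsC_succ, ih h1, length_bools, if_pos (by rw [pow_succ] at h; omega)]
    rfl

lemma length_boolsC_le (M k : ℕ) : (boolsC M k).length ≤ M + 1 := by
  cases k with
  | zero => simp [boolsC]
  | succ k =>
    rw [boolsC_succ]
    split_ifs with h
    · have : ∀ l : List (List Bool), (l.flatMap fun l => [false :: l, true :: l]).length =
          2 * l.length := by
        intro l
        induction l with
        | nil => rfl
        | cons a l ih => simp only [List.flatMap_cons, List.length_append, List.length_cons,
            List.length_nil, ih]; omega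
      rw [this]; omega
    · simp

lemma mem_boolsC_length {M k : ℕ} : ∀ l ∈ boolsC M k, l.length = k := by
  induction k with
  | zero => intro l hl; simp [boolsC] at hl; simp [hl]
  | succ k ih =>
    intro l hl
    rw [boolsC_succ] at hl
    split_ifs at hl with h
    · simp only [List.mem_flatMap, List.mem_cons, List.not_mem_nil, or_false] at hl
      obtain ⟨l', h1, rfl | rfl⟩ := hl <;> simp [ih l' h1]
    · simp at hl

/-! ### The dominating term -/

/-- the product of the values -/
def prodAt (As : List (Bool → ℤ)) (b : List Bool) : ℤ := (List.zipWith (fun A β => A β) As b).prod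

lemma prodAt_cons (A : Bool → ℤ) (As : List (Bool → ℤ)) (β : Bool) (b : List Bool) :
    prodAt (A :: As) (β :: b) = A β * prodAt As b := by simp [prodAt]

lemma sum_prodAt (As : List (Bool → ℤ)) :
    ((bools As.length).map (prodAt As)).sum = (As.map fun A => A false + A true).prod := by
  induction As with
  | nil => simp [bools, prodAt]
  | cons A As ih =>
    rw [List.length_cons, bools, List.map_cons, List.prod_cons, ← ih]
    generalize bools As.length = L
    induction L with
    | nil => simp
    | cons l L ih2 =>
      simp only [List.flatMap_cons, List.map_append, List.sum_append, List.map_cons, List.map_nil,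
        List.sum_cons, List.sum_nil, prodAt_cons] at ih2 ⊢
      rw [ih2]
      ring

lemma prodAt_nonneg {As : List (Bool → ℤ)} (h : ∀ A ∈ As, ∀ β, 0 ≤ A β) (b : List Bool) :
    0 ≤ prodAt As b := by
  induction As generalizing b with
  | nil => simp [prodAt]
  | cons A As ih =>
    rcases b with _ | ⟨β, b⟩
    · simp [prodAt]
    · rw [prodAt_cons]
      exact mul_nonneg (h A List.mem_cons_self β) (ih (fun A hA => h A (List.mem_cons_of_mem _ hA)) b)

/-- `A` has a dominating value at `β`. -/
def Dom (D : ℕ) (A : Bool → ℤ) (β : Bool) : Prop :=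
  0 < A β ∧ 0 ≤ A (!β) ∧ D * A (!β) ≤ A β

lemma dom_best {D : ℕ} {As : List (Bool → ℤ)} {b : List Bool}
    (h : List.Forall₂ (fun A β => Dom D A β) As b) (hK : As.length ≤ D) :
    0 < prodAt As b ∧ 0 < (As.map fun A => A false + A true).prod ∧
      ((D : ℤ) + 1 - As.length) * (As.map fun A => A false + A true).prod ≤
        ((D : ℤ) + 1) * prodAt As b := by
  induction h with
  | nil => simp [prodAt]
  | @cons A β As b hA hAs ih =>
    simp only [List.length_cons] at hK
    obtain ⟨h1, h2, h3⟩ := ih (by omega)
    obtain ⟨h4, h5, h6⟩ := hA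
    have hsum : A false + A true = A β + A (!β) := by cases β <;> simp [add_comm]
    rw [prodAt_cons, List.map_cons, List.prod_cons, hsum]
    set tot := (As.map fun A => A false + A true).prod with htot
    set best := prodAt As b with hbest
    refine ⟨mul_pos h4 h1, mul_pos (by linarith) h2, ?_⟩
    have hK' : (As.length : ℤ) + 1 ≤ D := by exact_mod_cast hK
    have hl0 : (0 : ℤ) ≤ As.length := by positivity
    have h7 : ((D : ℤ) - As.length) * (A β + A (!β)) ≤ ((D : ℤ) + 1 - As.length) * A β := by
      have : ((D : ℤ) - As.length) * A (!β) ≤ A β := by nlinarith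
      linarith
    have h8 : ((D : ℤ) + 1 - As.length) * A β * tot ≤ ((D : ℤ) + 1) * (A β * best) := by
      have := mul_le_mul_of_nonneg_left h3 h4.le
      linarith
    have h9 : ((D : ℤ) - As.length) * (A β + A (!β)) * tot ≤
        ((D : ℤ) + 1 - As.length) * A β * tot := mul_le_mul_of_nonneg_right h7 h2.le
    push_cast [List.length_cons]
    linarith

lemma two_mul_le_sum {ι : Type} (l : List ι) (W : ι → ℤ) (ε : ι → ℤ) (hW : ∀ i ∈ l, 0 ≤ W i)
    (hε : ∀ i ∈ l, -1 ≤ ε i) {i₀ : ι} (hi₀ : i₀ ∈ l) (h1 : ε i₀ = 1) :
    2 * W i₀ ≤ (l.map fun i => ε i * W i).sum + (l.map W).sum := by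
  rw [← List.sum_map_add]
  have h2 : 2 * W i₀ = ε i₀ * W i₀ + W i₀ := by rw [h1]; ring
  rw [h2]
  have h3 : ∀ x ∈ l.map (fun i => ε i * W i + W i), 0 ≤ x := by
    intro x hx
    obtain ⟨i, hi, rfl⟩ := List.mem_map.1 hx
    have := hW i hi
    have := hε i hi
    nlinarith
  exact List.single_le_sum h3 _ (List.mem_map.2 ⟨i₀, hi₀, rfl⟩)

/-- The sign of a Boolean combination. -/
theorem sign_comb {D : ℕ} {As : List (Bool → ℤ)} {b : List Bool}
    (h : List.Forall₂ (fun A β => Dom D A β) As b) (hnn : ∀ A ∈ As, ∀ β, 0 ≤ A β)
    (hK : 2 * As.length ≤ D) (ε : List Bool → Bool) :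
    0 < ((bools As.length).map fun b' => sgn (ε b') * prodAt As b').sum ↔ ε b = true := by
  obtain ⟨h1, h2, h3⟩ := dom_best h (by omega)
  have hb : b ∈ bools As.length := mem_bools.2 h.length_eq.symm
  have hW : ∀ i ∈ bools As.length, 0 ≤ prodAt As i := fun i _ => prodAt_nonneg hnn i
  have h4 : (As.map fun A => A false + A true).prod < 2 * prodAt As b := by
    have hK' : 2 * (As.length : ℤ) ≤ D := by exact_mod_cast hK
    have h5 : ((D : ℤ) + 2) * (As.map fun A => A false + A true).prod ≤
        2 * (((D : ℤ) + 1) * prodAt As b) := by nlinarith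
    have h6 : ((D : ℤ) + 1) * (As.map fun A => A false + A true).prod <
        ((D : ℤ) + 1) * (2 * prodAt As b) := by nlinarith
    exact lt_of_mul_lt_mul_left h6 (by positivity)
  have h5 := sum_prodAt As
  cases hε : ε b
  · have h6 := two_mul_le_sum (bools As.length) (prodAt As) (fun b' => -sgn (ε b')) hW
      (fun i _ => by cases ε i <;> simp [sgn]) hb (by simp [hε, sgn])
    rw [h5] at h6
    have h7 : ((bools As.length).map fun i => -sgn (ε i) * prodAt As i).sum =
        -((bools As.length).map fun i => sgn (ε i) * prodAt As i).sum := by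
      rw [← neg_one_mul, ← List.sum_map_mul_left]
      congr 1
      exact List.map_congr_left fun i _ => by ring
    rw [h7] at h6
    simp only [Bool.false_eq_true, iff_false, not_lt]
    linarith
  · have h6 := two_mul_le_sum (bools As.length) (prodAt As) (fun b' => sgn (ε b')) hW
      (fun i _ => by cases ε i <;> simp [sgn]) hb (by simp [hε, sgn])
    rw [h5] at h6
    simp only [iff_true]
    linarith

/-- The adaptive part. -/
lemma sum_indicator {ι : Type} [DecidableEq ι] {l : List ι} (hl : l.Nodup) {i₀ : ι} (hi₀ : i₀ ∈ l)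
    (F : ι → ℤ) : (l.map fun i => (if i = i₀ then 1 else 0) * F i).sum = F i₀ := by
  induction l with
  | nil => simp at hi₀
  | cons a l ih =>
    rw [List.nodup_cons] at hl
    rw [List.map_cons, List.sum_cons]
    rcases List.mem_cons.1 hi₀ with rfl | h
    · rw [if_pos rfl, one_mul]
      have : (l.map fun i => (if i = i₀ then 1 else 0) * F i).sum = 0 := by
        apply List.sum_eq_zero
        intro x hx
        obtain ⟨i, hi, rfl⟩ := List.mem_map.1 hx
        rw [if_neg (by rintro rfl; exact hl.1 hi), zero_mul]
      rw [this, add_zero]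
    · rw [if_neg (by rintro rfl; exact hl.1 h), zero_mul, zero_add, ih hl.2 h]

end Pool.Agent.Lib.MP_634427_lc.Votes
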