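import Pool.Agent.Lib.MP_634427_lc.Gen
import Pool.Agent.Lib.MP_634427_lc.Votes.Alg

/-!
# Candidate lists with explicit bounds
-/

namespace Pool.Agent.Lib.MP_634427_lc.Votes

open BT

/-- The core of the algorithm, with a bound `Kc` for the number of the bundles in `S` that is
computed from the parameter. -/
theorem exists_cands_pad (S : Set Word) {α : Type} [Enc α] (m : α → ℕ) (hm : PT m)
    (v : α → Word → Bool → Vec) (hv : ∀ b, PT fun p : α × Word => v p.1 p.2 b)
    (Kc : α → ℕ) (hKc : PT Kc) :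
    ∃ cand : α → List Word, PT cand ∧ ∀ a u, u.length = m a →
      (∃ T : Finset (List Word), T.card ≤ Kc a ∧ ∀ r b, r.length ≤ m a → ∀ e ∈ v a r b,
        (∀ w ∈ e.2, w ∈ S) → e.2 ∈ T) →
      (∀ r b, r.length ≤ m a → (0 < sc S (v a r b) ↔ par r u = b)) → u ∈ cand a := by
  obtain ⟨k, hk⟩ := hm.size_le
  have hmk : ∀ a, m a ≤ (sz a + 2) ^ k := fun a => by
    have := hk a; rwa [sz_nat] at this
  let z : α → Word → Vec := fun a r => v a r false ++ neg (v a r true)
  have hz : PT fun p : α × Word => z p.1 p.2 := PT.append (hv false) (PT.neg (hv true))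
  -- size bound for the vectors
  obtain ⟨e, he⟩ : ∃ e, ∀ a r b, r.length ≤ m a → sz (v a r b) ≤ (sz a + 2) ^ e := by
    have h0 : ∀ b, ∃ e, ∀ a r, r.length ≤ m a → sz (v a r b) ≤ (sz a + 2) ^ e := by
      intro b
      obtain ⟨k2, hk2⟩ := (hv b).size_le
      obtain ⟨e, he⟩ := PB.pow (PB.add (PB.add PB.id (PB.add (PB.mul (PB.const 2)
        (⟨k, fun n => le_rfl⟩ : PB fun n => (n + 2) ^ k)) (PB.const 1))) (PB.const 2)) k2
      refine ⟨e, fun a r hr => (hk2 (a, r)).trans
        (le_trans (Nat.pow_le_pow_left ?_ k2) (he (sz a)))⟩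
      have h2 := sz_word_le r
      have h4 := hmk a
      simp only [sz_pair]
      omega
    obtain ⟨e1, h1⟩ := h0 false
    obtain ⟨e2, h2⟩ := h0 true
    refine ⟨e1 + e2, fun a r b hr => ?_⟩
    cases b
    · exact (h1 a r hr).trans (Nat.pow_le_pow_right (by omega) (by omega))
    · exact (h2 a r hr).trans (Nat.pow_le_pow_right (by omega) (by omega))
  let ℓ : α → ℕ := fun a => (sz a + 2) ^ e
  let D : α → ℕ := fun a => (2 * ℓ a) ^ 2
  let K : α → ℕ := fun a => Kc a * D a
  let N : α → ℕ := fun a => 2 * (K a * D a * D a) ^ 2 + 2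
  have hℓ : PT ℓ := PT.pow (PT.add (PT.size PT.id) (PT.const 2)) e
  have hDp : PT D := PT.pow (PT.mul (PT.const 2) hℓ) 2
  have hKp : PT K := PT.mul hKc hDp
  have hNp : PT N := PT.add (PT.mul (PT.const 2) (PT.pow (PT.mul (PT.mul hKp hDp) hDp) 2))
    (PT.const 2)
  -- norm bound
  have hD : ∀ a (r : Word), r.length ≤ m a → dot (z a r) (z a r) ≤ D a := by
    intro a r hr
    refine (dot_self_le _).trans ?_
    have h1 : (z a r).length ≤ 2 * ℓ a := by
      have h2 := (length_le_sz _).trans (he a r false hr)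
      have h3 := (length_le_sz _).trans (he a r true hr)
      simp only [z, List.length_append, neg, List.length_map, ℓ]
      omega
    have h2 : (z a r).length ^ 2 ≤ D a := Nat.pow_le_pow_left h1 2
    exact_mod_cast h2
  refine ⟨fun a => (loop (z a) (K a) (N a) (m a)).1,
    PT.fst' (pt_loop hz PT.id hKp hNp hm), ?_⟩
  rintro a u hu ⟨T, hTc, hT⟩ hsgn
  have hT' : ∀ (r : Word), r.length ≤ m a → ∀ q ∈ z a r, (∀ w ∈ q.2, w ∈ S) → q.2 ∈ T := by
    intro r hr q hq hqS
    rcases List.mem_append.1 hq with h | h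
    · exact hT r false hr q h hqS
    · obtain ⟨q', hq', rfl⟩ := List.mem_map.1 h
      exact hT r true hr q' hq' hqS
  have h := mem_loop (z := z a) (K := K a) (N := N a) (m := m a) (D := D a) (hD a) le_rfl
    (fun Q => ∀ w ∈ Q, w ∈ S) T hT' (Nat.mul_le_mul_right _ hTc) u hu ?_ (m a) le_rfl
  · rwa [← hu, List.take_length, hu] at h
  · intro r hr
    simp only [z, score_append, score_neg]
    have hf' := hsgn r false hr
    have ht' := hsgn r true hr
    unfold sc at hf' ht'
    cases hp : par r u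
    · rw [hp] at hf' ht'
      have h2 := hf'.2 rfl
      have h3 : ¬ 0 < score (fun Q => ∀ w ∈ Q, w ∈ S) (v a r true) := fun h => by
        have := ht'.1 h; cases this
      simp only [sgn, Bool.not_false, if_true]
      omega
    · rw [hp] at hf' ht'
      have h2 := ht'.2 rfl
      have h3 : ¬ 0 < score (fun Q => ∀ w ∈ Q, w ∈ S) (v a r false) := fun h => by
        have := hf'.1 h; cases this
      simp only [sgn, Bool.not_true, Bool.false_eq_true, if_false]
      omega

end Pool.Agent.Lib.MP_634427_lc.Votes
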