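import Pool.Agent.Lib.MP_634427_lc.Votes.Paths

/-!
# Weights in unary
-/

namespace Pool.Agent.Lib.MP_634427_lc.Votes

open BT

/-- the number with the given digits, with a cap -/
def dig (M : ℕ) (l : List Bool) : ℕ := l.foldr (fun b r => min ((bif b then 1 else 0) + 2 * r) M) 0

lemma dig_eq (M : ℕ) (l : List Bool) : dig M l = min (ofDigits l) M := by
  induction l with
  | nil => simp [dig, ofDigits]
  | cons b l ih =>
    have h : dig M (b :: l) = min ((bif b then 1 else 0) + 2 * dig M l) M := rfl
    rw [h, ih, ofDigits]
    cases b <;> simp only [cond_false, cond_true, Bool.false_eq_true, if_false, if_true] <;>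
      rcases le_total (ofDigits l) M with h1 | h1 <;>
      simp only [Nat.min_def] <;> split_ifs <;> omega

lemma dig_le (M : ℕ) (l : List Bool) : dig M l ≤ M := by rw [dig_eq]; exact Nat.min_le_right _ _

lemma ofDigits_lt (l : List Bool) : ofDigits l < 2 ^ l.length := by
  induction l with
  | nil => simp [ofDigits]
  | cons b l ih =>
    rw [ofDigits, List.length_cons, pow_succ]
    split_ifs <;> omega

/-- the vote with weights in unary; only `w` digits are read -/
def expand (M w : ℕ) (v : List ((Bool × List Bool) × List Word)) : Vec :=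
  v.flatMap fun e => List.replicate (dig M (e.1.2.take w)) (e.1.1, e.2)

lemma length_expand_le (M w : ℕ) (v : List ((Bool × List Bool) × List Word)) :
    (expand M w v).length ≤ v.length * 2 ^ w := by
  induction v with
  | nil => simp [expand]
  | cons e v ih =>
    unfold expand at ih ⊢
    rw [List.flatMap_cons, List.length_append, List.length_replicate, List.length_cons,
      Nat.succ_mul]
    have h1 : dig M (e.1.2.take w) ≤ 2 ^ w := by
      rw [dig_eq]
      refine (Nat.min_le_left _ _).trans ((ofDigits_lt _).le.trans ?_)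
      exact Nat.pow_le_pow_right (by omega) (List.length_take_le _ _)
    omega

lemma mem_expand {M w : ℕ} {v : List ((Bool × List Bool) × List Word)} {e : Bool × List Word}
    (h : e ∈ expand M w v) : ∃ e' ∈ v, e.2 = e'.2 := by
  obtain ⟨e', he', h⟩ := List.mem_flatMap.1 h
  exact ⟨e', he', by rw [(List.mem_replicate.1 h).2]⟩

lemma sc_replicate' (S : Set Word) (n : ℕ) (e : Bool × List Word) :
    sc S (List.replicate n e) =
      n * (open Classical in if ∀ w ∈ e.2, w ∈ S then sgn e.1 else 0) := by
  induction n with
  | zero => simp [sc_nil]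
  | succ n ih =>
    rw [List.replicate_succ, sc_cons, ih]
    push_cast
    ring

lemma sc_expand (S : Set Word) {M w : ℕ} (hM : 2 ^ w ≤ M)
    {v : List ((Bool × List Bool) × List Word)} (hv : ∀ e ∈ v, e.1.2.length ≤ w) :
    sc S (expand M w v) = votes S v := by
  classical
  induction v with
  | nil => simp [expand, sc_nil, votes]
  | cons e v ih =>
    have h1 : expand M w (e :: v) = List.replicate (dig M (e.1.2.take w)) (e.1.1, e.2) ++
        expand M w v := by simp [expand]
    have h2 : votes S (e :: v) = (if ∀ w ∈ e.2, w ∈ S then weight e.1 else 0) + votes S v := by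
      simp [votes]
    have h3 : dig M (e.1.2.take w) = ofDigits e.1.2 := by
      rw [List.take_of_length_le (hv e List.mem_cons_self), dig_eq]
      refine Nat.min_eq_left ((ofDigits_lt _).le.trans (le_trans ?_ hM))
      exact Nat.pow_le_pow_right (by omega) (hv e List.mem_cons_self)
    rw [h1, sc_append, sc_replicate', ih fun e he => hv e (List.mem_cons_of_mem _ he), h2, h3]
    congr 1
    by_cases h : ∀ w ∈ e.2, w ∈ S
    · rw [if_pos h]
      simp only [if_pos h]
      unfold weight
      cases e.1.1 <;> simp [sgn]
    · rw [if_neg h]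
      simp only [if_neg h, mul_zero]

variable {γ : Type} [Enc γ]

lemma pt_dig {M : γ → ℕ} {l : γ → List Bool} (hM : PT M) (hl : PT l) :
    PT fun c => dig (M c) (l c) := by
  refine PT.foldr_bdd (s := fun _ => (0 : ℕ))
    (f := fun c (b : Bool) r => min ((bif b then 1 else 0) + 2 * r) (M c)) hl (PT.const 0) ?_ ?_
  · exact PT.min (PT.add (PT.cond (PT.fst' PT.snd) (PT.const 1) (PT.const 0))
      (PT.mul (PT.const 2) (PT.snd' PT.snd))) (hM.comp PT.fst)
  · obtain ⟨k, hk⟩ := hM.size_le
    refine ⟨k, fun c b r _ => ?_⟩
    have := hk c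
    rw [sz_nat] at this ⊢
    exact (Nat.min_le_right _ _).trans this

lemma pt_expand {M w : γ → ℕ} {v : γ → List ((Bool × List Bool) × List Word)} (hM : PT M)
    (hw : PT w) (hv : PT v) : PT fun c => expand (M c) (w c) (v c) := by
  refine PT.flatMap (f := fun c (e : (Bool × List Bool) × List Word) =>
    List.replicate (dig (M c) (e.1.2.take (w c))) (e.1.1, e.2)) hv ?_
  exact PT.replicate (pt_dig (hM.comp PT.fst) (PT.take (hw.comp PT.fst)
    (PT.snd' (PT.fst' PT.snd)))) (PT.pair (PT.fst' (PT.fst' PT.snd)) (PT.snd' PT.snd))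

end Pool.Agent.Lib.MP_634427_lc.Votes
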