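import Pool.Agent.Lib.MP_634427_lc.Votes.Compile

/-!
# The compiled vote is computed in polynomial time
-/

namespace Pool.Agent.Lib.MP_634427_lc.Votes

open BT

variable {γ : Type} [Enc γ]

lemma pt_mulV {f g : γ → Vec} (hf : PT f) (hg : PT g) : PT fun c => mulV (f c) (g c) := by
  refine PT.flatMap (f := fun c (e : Bool × List Word) =>
    (g c).map fun e' => (e.1 == e'.1, e.2 ++ e'.2)) hf ?_
  refine PT.map (γ := γ × (Bool × List Word)) (l := fun p => g p.1)
    (f := fun p (e' : Bool × List Word) => (p.2.1 == e'.1, p.2.2 ++ e'.2)) (hg.comp PT.fst) ?_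
  exact PT.pair (PT.beqBool (PT.fst' (PT.snd' PT.fst)) (PT.fst' PT.snd))
    (PT.append (PT.snd' (PT.snd' PT.fst)) (PT.snd' PT.snd))

lemma sz_prodC_le (M : ℕ) (L : List Vec) : sz (prodC M L) ≤ (M + 1) * (sz L + 3) := by
  refine (sz_list_le (prodC M L) (sz L + 2) fun e he => ?_).trans
    (Nat.mul_le_mul_right _ (length_prodC_le M L))
  have h1 := sz_mem_prodC e he
  have h2 := sz_bool_le e.1
  rw [sz_prod]
  omega

lemma pt_prodC {M : γ → ℕ} {L : γ → List Vec} (hM : PT M) (hL : PT L) :
    PT fun c => prodC (M c) (L c) := by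
  refine PT.foldr (s := fun _ => [(true, [])])
    (f := fun c (v : Vec) (acc : Vec) => if v.length * acc.length ≤ M c then mulV v acc else [])
    hL (PT.const _) ?_ ?_
  · exact PT.ite (p := fun p : γ × Vec × Vec => p.2.1.length * p.2.2.length ≤ M p.1)
      (PT.le (PT.mul (PT.length (PT.fst' PT.snd)) (PT.length (PT.snd' PT.snd))) (hM.comp PT.fst))
      (pt_mulV (PT.fst' PT.snd) (PT.snd' PT.snd)) (PT.const [])
  · obtain ⟨a, ha⟩ := hM.size_le
    obtain ⟨b, hb⟩ := hL.size_le
    obtain ⟨e, he⟩ := PB.mul (F := fun n => (n + 2) ^ a + 1) (G := fun n => (n + 2) ^ b + 3)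
      (PB.add ⟨a, fun n => le_rfl⟩ (PB.const 1)) (PB.add ⟨b, fun n => le_rfl⟩ (PB.const 3))
    refine ⟨e, fun c l' hl' => (sz_prodC_le (M c) l').trans (le_trans ?_ (he (sz c)))⟩
    have h1 := ha c
    rw [sz_nat] at h1
    exact Nat.mul_le_mul (by omega) (by have := (sz_suffix_le hl').trans (hb c); omega)

lemma pt_boolsC {M k : γ → ℕ} (hM : PT M) (hk : PT k) : PT fun c => boolsC (M c) (k c) := by
  refine PT.natRec (s := fun _ : γ => ([[]] : List (List Bool)))
    (f := fun c (_ : ℕ) L => if 2 * L.length ≤ M c then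
      L.flatMap fun l => [false :: l, true :: l] else []) hk (PT.const _) ?_ ?_
  · refine PT.ite (p := fun p : γ × ℕ × List (List Bool) => 2 * p.2.2.length ≤ M p.1)
      (PT.le (PT.mul (PT.const 2) (PT.length (PT.snd' PT.snd))) (hM.comp PT.fst)) ?_ (PT.const [])
    refine PT.flatMap (γ := γ × ℕ × List (List Bool)) (l := fun p => p.2.2)
      (f := fun _ (l : List Bool) => [false :: l, true :: l]) (PT.snd' PT.snd) ?_
    exact PT.cons (PT.cons (PT.const false) PT.snd)
      (PT.cons (PT.cons (PT.const true) PT.snd) (PT.const []))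
  · obtain ⟨a, ha⟩ := hM.size_le
    obtain ⟨b, hb⟩ := hk.size_le
    obtain ⟨e, he⟩ := PB.mul (F := fun n => (n + 2) ^ a + 1) (G := fun n => 2 * (n + 2) ^ b + 1)
      (PB.add ⟨a, fun n => le_rfl⟩ (PB.const 1))
      (PB.add (PB.mul (PB.const 2) ⟨b, fun n => le_rfl⟩) (PB.const 1))
    refine ⟨e, fun c i hi => le_trans ?_ (he (sz c))⟩
    have h1 := ha c
    have h2 := hb c
    rw [sz_nat] at h1 h2
    have h3 : sz (boolsC (M c) i) ≤ (M c + 1) * (2 * i + 1) := by
      refine (sz_list_le (boolsC (M c) i) (2 * i) fun l hl => ?_).trans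
        (Nat.mul_le_mul_right _ (length_boolsC_le _ _))
      exact (sz_word_le l).trans (by rw [mem_boolsC_length l hl])
    exact h3.trans (Nat.mul_le_mul (by omega) (by omega))

lemma pt_dbl {M j : γ → ℕ} (hM : PT M) (hj : PT j) : PT fun c => dbl (M c) (j c) := by
  refine PT.natRec (s := fun _ : γ => (1 : ℕ)) (f := fun c (_ : ℕ) r => min (2 * r) (M c)) hj
    (PT.const _) (PT.min (PT.mul (PT.const 2) (PT.snd' PT.snd)) (hM.comp PT.fst)) ?_
  obtain ⟨a, ha⟩ := hM.size_le
  obtain ⟨e, he⟩ := PB.add (F := fun n => (n + 2) ^ a) ⟨a, fun n => le_rfl⟩ (PB.const 1)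
  refine ⟨e, fun c i _ => le_trans ?_ (he (sz c))⟩
  have h1 := ha c
  rw [sz_nat] at h1
  rw [sz_nat]
  exact (dbl_le (M c) i).trans (Nat.succ_le_succ h1)

lemma pt_pws {Z : γ → ℕ} (hZ : PT Z) : PT fun c => pws (Z c) :=
  PT.map (f := fun c j => dbl (2 * Z c + 1) j) (PT.range (PT.succ (PT.fst' (pt_lg hZ))))
    (pt_dbl (PT.succ (PT.mul (PT.const 2) (hZ.comp PT.fst))) PT.snd)

lemma pt_vfac {v : γ → Vec} {β : γ → Bool} {p : γ → ℕ} (hv : PT v) (hβ : PT β) (hp : PT p) :
    PT fun c => vfac (v c) (β c) (p c) :=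
  PT.append (PT.append (PT.append hv hv) (PT.const _))
    (PT.replicate hp (PT.pair hβ (PT.const [])))

lemma pt_facs {K : γ → ℕ} {v : γ → Vec} {β : γ → Bool} (hK : PT K) (hv : PT v) (hβ : PT β) :
    PT fun c => facs (K c) (v c) (β c) := by
  refine PT.flatMap (f := fun c (_ : ℕ) => (pws (2 * (v c).length + 1)).map (vfac (v c) (β c)))
    (PT.range (PT.mul (PT.const 2) hK)) ?_
  have h : PT fun c => (pws (2 * (v c).length + 1)).map (vfac (v c) (β c)) :=
    PT.map (f := fun c => vfac (v c) (β c)) (pt_pws (PT.succ (PT.mul (PT.const 2) (PT.length hv))))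
      (pt_vfac (hv.comp PT.fst) (hβ.comp PT.fst) PT.snd)
  exact h.comp PT.fst

lemma pt_lit {β : γ → Bool} {w : γ → Word} (hβ : PT β) (hw : PT w) :
    PT fun c => lit (β c) (w c) :=
  PT.cond hβ (PT.cons (PT.pair (PT.const true) (PT.cons hw (PT.const []))) (PT.const []))
    (PT.cons (PT.const _) (PT.cons (PT.pair (PT.const false) (PT.cons hw (PT.const [])))
      (PT.const [])))

lemma pt_lits {query : γ → List Bool → Word} {a : γ → List Bool}
    (hq : PT fun p : γ × List Bool => query p.1 p.2) (ha : PT a) :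
    PT fun c => lits (query c) (a c) := by
  refine PT.map (f := fun c i => lit ((a c).getD i false) (query c ((a c).take i)))
    (PT.range (PT.length ha)) ?_
  exact pt_lit (PT.getLD PT.snd (ha.comp PT.fst) (PT.const false))
    (hq.comp (PT.pair PT.fst (PT.take PT.snd (ha.comp PT.fst))))

lemma pt_vfacs {vs : γ → List Vec} {b : γ → List Bool} (hvs : PT vs) (hb : PT b) :
    PT fun c => vfacs (vs c) (b c) := by
  refine PT.flatMap (f := fun c i => facs (vs c).length ((vs c).getD i []) ((b c).getD i false))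
    (PT.range (PT.length hvs)) ?_
  exact pt_facs (PT.length (hvs.comp PT.fst)) (PT.getLD PT.snd (hvs.comp PT.fst) (PT.const []))
    (PT.getLD PT.snd (hb.comp PT.fst) (PT.const false))

lemma pt_cfacs {query : γ → List Bool → Word} {votes : γ → List Bool → List Vec}
    {out : γ → List Bool → List Bool → Bool} {a b : γ → List Bool}
    (hq : PT fun p : γ × List Bool => query p.1 p.2)
    (hv : PT fun p : γ × List Bool => votes p.1 p.2)
    (ho : PT fun p : (γ × List Bool) × List Bool => out p.1.1 p.1.2 p.2) (ha : PT a) (hb : PT b) :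
    PT fun c => cfacs (query c) (votes c) (out c) (a c) (b c) := by
  refine PT.cons (PT.cons (PT.pair (ho.comp (PT.pair (PT.pair PT.id ha) hb)) (PT.const []))
    (PT.const [])) (PT.append (pt_lits hq ha) (pt_vfacs (hv.comp (PT.pair PT.id ha)) hb))

lemma pt_okv {w : γ → ℕ} {vs : γ → List Vec} (hw : PT w) (hvs : PT vs) :
    PT fun c => okv (w c) (vs c) := by
  refine PT.and (PT.le (PT.length hvs) hw) ?_
  refine PT.all (p := fun c (v : Vec) => v.all fun e => decide (e.2.length ≤ w c)) hvs ?_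
  refine PT.all (γ := γ × Vec) (l := fun p => p.2) (p := fun p (e : Bool × List Word) =>
    decide (e.2.length ≤ w p.1)) PT.snd ?_
  exact PT.le (PT.length (PT.snd' PT.snd)) (hw.comp (PT.fst' PT.fst))

lemma pt_valid {stop : γ → List Bool → Bool} {a : γ → List Bool}
    (hs : PT fun p : γ × List Bool => stop p.1 p.2) (ha : PT a) :
    PT fun c => valid (stop c) (a c) := by
  refine PT.and (hs.comp (PT.pair PT.id ha)) ?_
  refine PT.all (p := fun c j => !stop c ((a c).take j)) (PT.range (PT.length ha)) ?_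
  exact PT.not (hs.comp (PT.pair PT.fst (PT.take PT.snd (ha.comp PT.fst))))

theorem pt_comp {M n w : γ → ℕ} {stop : γ → List Bool → Bool} {query : γ → List Bool → Word}
    {votes : γ → List Bool → List Vec} {out : γ → List Bool → List Bool → Bool} (hM : PT M)
    (hn : PT n) (hw : PT w) (hs : PT fun p : γ × List Bool => stop p.1 p.2)
    (hq : PT fun p : γ × List Bool => query p.1 p.2)
    (hv : PT fun p : γ × List Bool => votes p.1 p.2)
    (ho : PT fun p : (γ × List Bool) × List Bool => out p.1.1 p.1.2 p.2) :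
    PT fun c => comp (M c) (n c) (w c) (stop c) (query c) (votes c) (out c) := by
  refine PT.flatMap (f := fun c i => (boolsC (M c) i).flatMap fun a =>
    bif valid (stop c) a && okv (w c) (votes c a) then
      (boolsC (M c) (votes c a).length).flatMap fun b =>
        prodC (M c) (cfacs (query c) (votes c) (out c) a b) else []) (PT.range (PT.succ hn)) ?_
  refine PT.flatMap (γ := γ × ℕ) (l := fun p => boolsC (M p.1) p.2) (f := fun p a =>
    bif valid (stop p.1) a && okv (w p.1) (votes p.1 a) then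
      (boolsC (M p.1) (votes p.1 a).length).flatMap fun b =>
        prodC (M p.1) (cfacs (query p.1) (votes p.1) (out p.1) a b) else [])
    (pt_boolsC (hM.comp PT.fst) PT.snd) ?_
  have hva : PT fun p : (γ × ℕ) × List Bool => votes p.1.1 p.2 :=
    hv.comp (PT.pair (PT.fst' PT.fst) PT.snd)
  refine PT.cond (PT.and (pt_valid (stop := fun p : (γ × ℕ) × List Bool => stop p.1.1)
    (hs.comp (PT.pair (PT.fst' (PT.fst' PT.fst)) PT.snd)) PT.snd)
    (pt_okv (hw.comp (PT.fst' PT.fst)) hva)) ?_ (PT.const [])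
  refine PT.flatMap (γ := (γ × ℕ) × List Bool)
    (l := fun p => boolsC (M p.1.1) (votes p.1.1 p.2).length)
    (f := fun p b => prodC (M p.1.1) (cfacs (query p.1.1) (votes p.1.1) (out p.1.1) p.2 b))
    (pt_boolsC (hM.comp (PT.fst' PT.fst)) (PT.length hva)) ?_
  refine pt_prodC (hM.comp (PT.fst' (PT.fst' PT.fst))) ?_
  exact pt_cfacs (γ := ((γ × ℕ) × List Bool) × List Bool) (query := fun p => query p.1.1.1)
    (votes := fun p => votes p.1.1.1) (out := fun p => out p.1.1.1)
    (hq.comp (PT.pair (PT.fst' (PT.fst' (PT.fst' PT.fst))) PT.snd))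
    (hv.comp (PT.pair (PT.fst' (PT.fst' (PT.fst' PT.fst))) PT.snd))
    (ho.comp (PT.pair (PT.pair (PT.fst' (PT.fst' (PT.fst' (PT.fst' PT.fst))))
      (PT.snd' PT.fst)) PT.snd))
    (PT.snd' PT.fst) PT.snd

end Pool.Agent.Lib.MP_634427_lc.Votes
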