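import Pool.Agent.Lib.MP_634427_lc.Votes.Core
import Pool.Agent.Lib.MP_634427_lc.Votes.CompilePT

/-!
# Paths of the adaptive phase
-/

namespace Pool.Agent.Lib.MP_634427_lc.Votes

open BT KNo

/-- the number of negative answers -/
def cntF (l : List Bool) : ℕ := (l.filter fun b => !b).length

lemma cntF_eq (l : List Bool) : cntF l = l.count false := by
  induction l with
  | nil => rfl
  | cons b l ih => cases b <;> simp [cntF] at ih ⊢ <;> exact ih

lemma pt_cntF {γ : Type} [Enc γ] {l : γ → List Bool} (hl : PT l) : PT fun c => cntF (l c) :=
  PT.length (PT.filter (p := fun _ b => !b) hl (PT.not PT.snd))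

section answers

variable {S : Set Word} {stop : List Bool → Bool} {query : List Bool → Word}

/-- The answers of a computation that has not stopped before. -/
lemma answers_get {n : ℕ} {l : List Bool} (hl : l = answers S stop query n) :
    ∀ i < l.length, stop (l.take i) = false ∧
      l.take (i + 1) = l.take i ++ [open Classical in decide (query (l.take i) ∈ S)] := by
  classical
  subst hl
  induction n with
  | zero => intro i hi; simp [answers] at hi
  | succ n ih =>
    intro i hi
    rw [answers] at hi ⊢
    by_cases h : stop (answers S stop query n) = true
    · rw [if_pos h] at hi ⊢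
      exact ih i hi
    · rw [if_neg h] at hi ⊢
      rw [List.length_append, List.length_singleton] at hi
      rcases Nat.lt_or_ge i (answers S stop query n).length with h1 | h1
      · have h2 := ih i h1
        rw [List.take_append_of_le_length h1.le, List.take_append_of_le_length (by omega)]
        exact h2
      · have h2 : i = (answers S stop query n).length := by omega
        rw [h2, List.take_append_of_le_length le_rfl, List.take_length,
          List.take_of_length_le (by simp)]
        exact ⟨Bool.eq_false_iff.2 h, rfl⟩

/-- The answers after a prefix. -/
lemma answers_shift {n : ℕ} {tr a : List Bool} (hl : tr ++ a = answers S stop query n) :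
    a = answers S (fun _ => false) (fun a => query (tr ++ a)) a.length ∧
      ∀ j < a.length, stop (tr ++ a.take j) = false := by
  classical
  have h := answers_get hl
  have key : ∀ j < a.length, stop (tr ++ a.take j) = false ∧
      a.take (j + 1) = a.take j ++ [decide (query (tr ++ a.take j) ∈ S)] := by
    intro j hj
    obtain ⟨h1, h2⟩ := h (tr.length + j) (by rw [List.length_append]; omega)
    have e1 : (tr ++ a).take (tr.length + j) = tr ++ a.take j := by
      rw [List.take_append]; simp
    have e2 : (tr ++ a).take (tr.length + j + 1) = tr ++ a.take (j + 1) := by
      rw [Nat.add_assoc, List.take_append]; simp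
    rw [e1] at h1
    rw [e1, e2, List.append_assoc] at h2
    exact ⟨h1, List.append_cancel_left h2⟩
  refine ⟨?_, fun j hj => (key j hj).1⟩
  have h3 : ∀ j ≤ a.length, a.take j =
      answers S (fun _ => false) (fun a => query (tr ++ a)) j := by
    intro j
    induction j with
    | zero => intro _; simp [answers]
    | succ j ih =>
      intro hj
      rw [(key j (by omega)).2, answers, ← ih (by omega)]
      simp
  have := h3 a.length le_rfl
  rwa [List.take_length] at this

end answers

section good

variable {S : Set Word} {stop : List Bool → Bool} {query : List Bool → Word} {k : ℕ}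

/-- the adaptive phase is cut when `k + 1` negative answers have been received -/
def stop1 (k : ℕ) (stop : List Bool → Bool) (l : List Bool) : Bool :=
  stop l || decide (k + 1 ≤ cntF l)

lemma good_of_stop1 {next next' : Word → List Bool → Option Word} {r : Word}
    (hn : ∀ l, next r l = nxt (stop1 k stop) query l) (hn' : ∀ l, next' r l = nxt stop query l)
    {tr : List Bool} (h : Good next S (r, tr)) : Good next' S (r, tr) := by
  intro pre b hp
  obtain ⟨s, hs, hb⟩ := h pre b hp
  simp only at hs
  rw [hn, nxt_eq_some] at hs
  refine ⟨s, ?_, hb⟩
  simp only
  rw [hn', nxt_eq_some]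
  refine ⟨?_, hs.2⟩
  have := hs.1
  simp only [stop1, Bool.or_eq_false_iff] at this
  exact this.1

lemma cntF_good {next : Word → List Bool → Option Word} {r : Word}
    (hn : ∀ l, next r l = nxt (stop1 k stop) query l) {tr : List Bool}
    (h : Good next S (r, tr)) : cntF tr ≤ k + 1 := by
  rcases tr.eq_nil_or_concat with h0 | ⟨pre, b, h0⟩
  · subst h0; simp [cntF]
  · rw [List.concat_eq_append] at h0
    subst h0
    obtain ⟨s, hs, _⟩ := h pre b (List.prefix_refl _)
    simp only at hs
    rw [hn, nxt_eq_some] at hs
    have h1 := hs.1
    simp only [stop1, Bool.or_eq_false_iff, decide_eq_false_iff_not, not_le] at h1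
    have h2 : cntF (pre ++ [b]) ≤ cntF pre + 1 := by
      unfold cntF
      rw [List.filter_append, List.length_append]
      have := List.length_filter_le (fun b => !b) [b]
      simp only [List.length_singleton] at this
      omega
    omega

lemma turns_le_cntF {next : Word → List Bool → Option Word} (r : Word) (tr : List Bool) :
    turns next (r, tr) ≤ cntF tr := by
  induction tr using List.reverseRecOn with
  | nil => simp [turns]
  | append_singleton tr b ih =>
    rw [turns_append]
    unfold cntF at ih ⊢
    rw [List.filter_append, List.length_append]
    cases b
    · simp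
      split_ifs <;> omega
    · simp
      omega

end good

/-- the vote with the weights of `LT.Vote` -/
def toVote (v : Vec) : List LT.Vote := v.map fun e => ((e.1, [true]), e.2)

lemma votes_toVote (S : Set Word) (v : Vec) : votes S (toVote v) = sc S v := by
  classical
  induction v with
  | nil => simp [toVote, votes, sc_nil]
  | cons e v ih =>
    have h1 : votes S (toVote (e :: v)) =
        (if ∀ w ∈ e.2, w ∈ S then weight (e.1, [true]) else 0) + votes S (toVote v) := by
      simp [toVote, votes]
    rw [h1, ih, sc_cons]
    congr 1

lemma sc_eq_balance (S : Set Word) (v : Vec) : sc S v = balance S v := (balance_eq_score S v).symm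

end Pool.Agent.Lib.MP_634427_lc.Votes
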