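import Pool.Agent.Lib.MP_634427_lc.Votes.Sign
import Pool.Agent.Lib.MP_634427_lc.NegSolve

/-!
# One vote for a Boolean combination of votes after an adaptive phase
-/

namespace Pool.Agent.Lib.MP_634427_lc.Votes

open BT

/-- the literal `w ∈ S` or `w ∉ S` -/
def lit (β : Bool) (w : Word) : Vec := bif β then [(true, [w])] else [(true, []), (false, [w])]

/-- the literals of a path -/
def lits (query : List Bool → Word) (a : List Bool) : List Vec :=
  (List.range a.length).map fun i => lit (a.getD i false) (query (a.take i))

/-- the factors of the votes -/
def vfacs (vs : List Vec) (b : List Bool) : List Vec :=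
  (List.range vs.length).flatMap fun i => facs vs.length (vs.getD i []) (b.getD i false)

/-- all factors of a term -/
def cfacs (query : List Bool → Word) (votes : List Bool → List Vec)
    (out : List Bool → List Bool → Bool) (a b : List Bool) : List Vec :=
  [(out a b, [])] :: (lits query a ++ vfacs (votes a) b)

/-- the number of votes and the sizes of the bundles are at most `w` -/
def okv (w : ℕ) (vs : List Vec) : Bool :=
  decide (vs.length ≤ w) && vs.all fun v => v.all fun e => decide (e.2.length ≤ w)

/-- the path `a` is complete -/
def valid (stop : List Bool → Bool) (a : List Bool) : Bool :=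
  stop a && (List.range a.length).all fun j => !stop (a.take j)

/-- the compiled vote -/
def comp (M n w : ℕ) (stop : List Bool → Bool) (query : List Bool → Word)
    (votes : List Bool → List Vec) (out : List Bool → List Bool → Bool) : Vec :=
  (List.range (n + 1)).flatMap fun i => (boolsC M i).flatMap fun a =>
    bif valid stop a && okv w (votes a) then (boolsC M (votes a).length).flatMap fun b =>
      prodC M (cfacs query votes out a b) else []

lemma okv_iff {w : ℕ} {vs : List Vec} :
    okv w vs = true ↔ vs.length ≤ w ∧ ∀ v ∈ vs, ∀ e ∈ v, e.2.length ≤ w := by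
  simp [okv]

lemma valid_iff {stop : List Bool → Bool} {a : List Bool} :
    valid stop a = true ↔ stop a = true ∧ ∀ j < a.length, stop (a.take j) = false := by
  simp [valid]

/-! ### Values -/

open Classical in
lemma sc_lit (S : Set Word) (β : Bool) (w : Word) :
    sc S (lit β w) = if β = decide (w ∈ S) then 1 else 0 := by
  cases β
  · show sc S [(true, []), (false, [w])] = _
    rw [sc_cons, sc_cons, sc_nil]
    by_cases h : w ∈ S <;> simp [h, sgn]
  · show sc S [(true, [w])] = _
    rw [sc_cons, sc_nil]
    by_cases h : w ∈ S <;> simp [h, sgn]

open Classical in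
lemma prod_lits (S : Set Word) (query : List Bool → Word) (a : List Bool) :
    ((lits query a).map (sc S)).prod =
      if a = answers S (fun _ => false) query a.length then 1 else 0 := by
  have key : ∀ j ≤ a.length, (((List.range j).map fun i => lit (a.getD i false)
      (query (a.take i))).map (sc S)).prod =
      if a.take j = answers S (fun _ => false) query j then 1 else 0 := by
    intro j
    induction j with
    | zero => intro _; simp [answers]
    | succ j ih =>
      intro hj
      rw [List.range_succ, List.map_append, List.map_append, List.prod_append, ih (by omega),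
        List.map_singleton, List.map_singleton, List.prod_singleton, sc_lit]
      have h1 : a.take (j + 1) = a.take j ++ [a.getD j false] := by
        rw [List.getD_eq_getElem?_getD, List.getElem?_eq_getElem (by omega), Option.getD_some,
          List.take_append_getElem]
      have h2 : answers S (fun _ => false) query (j + 1) = answers S (fun _ => false) query j ++
          [decide (query (answers S (fun _ => false) query j) ∈ S)] := by
        rw [answers]; simp
      rw [h1, h2]
      by_cases h : a.take j = answers S (fun _ => false) query j
      · rw [if_pos h, one_mul, ← h]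
        congr 1
        simp
      · rw [if_neg h, zero_mul, if_neg]
        intro h'
        exact h (List.append_inj' h' (by simp)).1
  have := key a.length le_rfl
  rwa [List.take_length] at this

lemma prod_vfacs (S : Set Word) (vs : List Vec) (b : List Bool) (hb : b.length = vs.length) :
    ((vfacs vs b).map (sc S)).prod = prodAt (vs.map (val S vs.length)) b := by
  have key : ∀ (K : ℕ) (vs : List Vec) (b : List Bool), b.length = vs.length →
      (((List.range vs.length).flatMap fun i => facs K (vs.getD i []) (b.getD i false)).map
        (sc S)).prod = prodAt (vs.map (val S K)) b := by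
    intro K vs
    induction vs with
    | nil => intro b _; simp [prodAt]
    | cons v vs ih =>
      intro b hb
      rcases b with _ | ⟨β, b⟩
      · simp at hb
      · rw [List.map_cons, prodAt_cons, ← ih b (by simpa using hb), List.length_cons,
          List.range_succ_eq_map, List.flatMap_cons, List.map_append, List.prod_append]
        congr 1
        rw [List.flatMap_map]
        rfl
  exact key _ _ _ hb

lemma prod_cfacs (S : Set Word) (query : List Bool → Word) (votes : List Bool → List Vec)
    (out : List Bool → List Bool → Bool) (a b : List Bool) (hb : b.length = (votes a).length) :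
    ((cfacs query votes out a b).map (sc S)).prod =
      (open Classical in if a = answers S (fun _ => false) query a.length then 1 else 0) *
      (sgn (out a b) * prodAt ((votes a).map (val S (votes a).length)) b) := by
  classical
  rw [cfacs, List.map_cons, List.prod_cons, List.map_append, List.prod_append, prod_lits,
    prod_vfacs S _ _ hb, sc_cons, sc_nil]
  simp only [List.not_mem_nil, false_imp_iff, implies_true, if_true, add_zero]
  split_ifs <;> ring

/-! ### Bounds -/

lemma lens_le {X : ℕ} {L : List Vec} (h : ∀ v ∈ L, v.length ≤ X) : lens L ≤ X ^ L.length := by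
  induction L with
  | nil => simp [lens]
  | cons v L ih =>
    rw [lens_cons, List.length_cons, pow_succ, mul_comm]
    exact Nat.mul_le_mul (ih fun w hw => h w (List.mem_cons_of_mem _ hw)) (h v List.mem_cons_self)

lemma length_flatMap_le' {ι : Type} (l : List ι) (f : ι → List Vec) (N : ℕ)
    (h : ∀ i ∈ l, (f i).length ≤ N) : (l.flatMap f).length ≤ l.length * N := by
  induction l with
  | nil => simp
  | cons a l ih =>
    rw [List.flatMap_cons, List.length_append, List.length_cons, Nat.succ_mul]
    have h1 := h a List.mem_cons_self
    have h2 := ih fun i hi => h i (List.mem_cons_of_mem _ hi)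
    omega

/-- the number of factors -/
def nf (w B : ℕ) : ℕ := 1 + w + w * (2 * w * (B + 1))

section bounds

variable {query : List Bool → Word} {votes : List Bool → List Vec}
  {out : List Bool → List Bool → Bool} {w B : ℕ}

lemma mem_cfacs {a b : List Bool} {v : Vec} (h : v ∈ cfacs query votes out a b) :
    v = [(out a b, [])] ∨ (∃ i < a.length, v = lit (a.getD i false) (query (a.take i))) ∨
      ∃ u ∈ votes a, ∃ β, ∃ p ∈ pws (2 * u.length + 1), v = vfac u β p := by
  rcases List.mem_cons.1 h with h | h
  · exact Or.inl h
  · rcases List.mem_append.1 h with h | h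
    · right; left
      obtain ⟨i, hi, rfl⟩ := List.mem_map.1 h
      exact ⟨i, List.mem_range.1 hi, rfl⟩
    · right; right
      simp only [vfacs, List.mem_flatMap, List.mem_range] at h
      obtain ⟨i, hi, h⟩ := h
      obtain ⟨p, hp, rfl⟩ := mem_facs h
      refine ⟨(votes a).getD i [], ?_, b.getD i false, p, hp, rfl⟩
      rw [List.getD_eq_getElem?_getD, List.getElem?_eq_getElem hi, Option.getD_some]
      exact List.getElem_mem hi

lemma length_cfacs_le {a b : List Bool} (ha : a.length ≤ w) (hK : (votes a).length ≤ w)
    (hX : ∀ v ∈ votes a, 6 * v.length + 4 ≤ 2 ^ B) :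
    (cfacs query votes out a b).length ≤ nf w B := by
  have h1 : (vfacs (votes a) b).length ≤ (votes a).length * (2 * (votes a).length * (B + 1)) := by
    refine (length_flatMap_le' _ _ (2 * (votes a).length * (B + 1)) fun i hi => ?_).trans
      (by rw [List.length_range])
    rw [List.mem_range] at hi
    rw [length_facs]
    refine Nat.mul_le_mul_left _ (Nat.succ_le_succ ?_)
    have h2 : (votes a).getD i [] ∈ votes a := by
      rw [List.getD_eq_getElem?_getD, List.getElem?_eq_getElem hi, Option.getD_some]
      exact List.getElem_mem hi
    have h3 := hX _ h2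
    have h4 := lg_le (2 * ((votes a).getD i []).length + 1)
    by_contra hcon
    push Not at hcon
    have h5 : 2 ^ (B + 1) ≤ 2 ^ (lg (2 * ((votes a).getD i []).length + 1)).1 :=
      Nat.pow_le_pow_right (by omega) hcon
    rw [pow_succ] at h5
    omega
  have h2 : (votes a).length * (2 * (votes a).length * (B + 1)) ≤ w * (2 * w * (B + 1)) :=
    Nat.mul_le_mul hK (Nat.mul_le_mul_right _ (Nat.mul_le_mul_left _ hK))
  rw [cfacs, List.length_cons, List.length_append, lits, List.length_map, List.length_range, nf]
  omega

lemma length_mem_cfacs {a b : List Bool} (hB : 2 ≤ B)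
    (hX : ∀ v ∈ votes a, 6 * v.length + 4 ≤ 2 ^ B) :
    ∀ v ∈ cfacs query votes out a b, 1 ≤ v.length ∧ v.length ≤ 2 ^ B := by
  intro v hv
  have h4 : 2 ^ 2 ≤ 2 ^ B := Nat.pow_le_pow_right (by omega) hB
  rcases mem_cfacs hv with rfl | ⟨i, _, rfl⟩ | ⟨u, hu, β, p, hp, rfl⟩
  · simp only [List.length_singleton]; omega
  · cases a.getD i false
    · simp only [lit, cond_false, List.length_cons, List.length_nil]; omega
    · simp only [lit, cond_true, List.length_cons, List.length_nil]; omega
  · have h5 := hX u hu
    have h6 := (mem_pws hp).2
    rw [length_vfac]
    omega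

lemma width_mem_cfacs {a b : List Bool} (hw : 1 ≤ w)
    (hd : ∀ v ∈ votes a, ∀ e ∈ v, e.2.length ≤ w) :
    ∀ v ∈ cfacs query votes out a b, ∀ e ∈ v, e.2.length ≤ w := by
  intro v hv e he
  rcases mem_cfacs hv with rfl | ⟨i, _, rfl⟩ | ⟨u, hu, β, p, hp, rfl⟩
  · simp only [List.mem_singleton] at he
    rw [he]; simp
  · cases h : a.getD i false
    · rw [h] at he
      have he' : e ∈ [(true, []), (false, [query (a.take i)])] := he
      simp only [List.mem_cons, List.not_mem_nil, or_false] at he'
      rcases he' with rfl | rfl <;> simp <;> omega
    · rw [h] at he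
      have he' : e ∈ [(true, [query (a.take i)])] := he
      simp only [List.mem_singleton] at he'
      rw [he']; simpa using hw
  · simp only [vfac, List.mem_append, List.mem_singleton, List.mem_replicate] at he
    rcases he with ((he | he) | rfl) | ⟨_, rfl⟩
    · exact hd u hu e he
    · exact hd u hu e he
    · simp
    · simp

lemma word_mem_cfacs {W : ℕ} {a b : List Bool} (hquery : ∀ l, l.length ≤ a.length →
    (query l).length ≤ W) (hd : ∀ v ∈ votes a, ∀ e ∈ v, ∀ x ∈ e.2, x.length ≤ W) :
    ∀ v ∈ cfacs query votes out a b, ∀ e ∈ v, ∀ x ∈ e.2, x.length ≤ W := by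
  intro v hv e he x hx
  rcases mem_cfacs hv with rfl | ⟨i, hi, rfl⟩ | ⟨u, hu, β, p, hp, rfl⟩
  · simp only [List.mem_singleton] at he
    rw [he] at hx; simp at hx
  · have h1 : (query (a.take i)).length ≤ W := hquery _ (by rw [List.length_take]; omega)
    cases h : a.getD i false
    · rw [h] at he
      have he' : e ∈ [(true, []), (false, [query (a.take i)])] := he
      simp only [List.mem_cons, List.not_mem_nil, or_false] at he'
      rcases he' with rfl | rfl
      · simp at hx
      · simp only [List.mem_singleton] at hx
        rw [hx]; exact h1
    · rw [h] at he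
      have he' : e ∈ [(true, [query (a.take i)])] := he
      simp only [List.mem_singleton] at he'
      rw [he'] at hx
      simp only [List.mem_singleton] at hx
      rw [hx]; exact h1
  · simp only [vfac, List.mem_append, List.mem_singleton, List.mem_replicate] at he
    rcases he with ((he | he) | rfl) | ⟨_, rfl⟩
    · exact hd u hu e he x hx
    · exact hd u hu e he x hx
    · simp at hx
    · simp at hx

end bounds

lemma mem_comp {M n w : ℕ} {stop : List Bool → Bool} {query : List Bool → Word}
    {votes : List Bool → List Vec} {out : List Bool → List Bool → Bool} {e : Bool × List Word}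
    (h : e ∈ comp M n w stop query votes out) :
    ∃ a b, a.length ≤ n ∧ okv w (votes a) = true ∧ e ∈ prodC M (cfacs query votes out a b) := by
  simp only [comp, List.mem_flatMap, List.mem_range] at h
  obtain ⟨i, hi, a, ha, h⟩ := h
  cases hok : okv w (votes a)
  · rw [hok] at h; simp at h
  · cases hv : valid stop a
    · rw [hv] at h; simp at h
    · rw [hok, hv] at h
      simp only [Bool.and_self, cond_true, List.mem_flatMap] at h
      obtain ⟨b, _, h⟩ := h
      exact ⟨a, b, by rw [mem_boolsC_length a ha]; omega, hok, h⟩

/-- The bundles of the compiled vote. -/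
theorem comp_bundles {M n w B W : ℕ} {stop : List Bool → Bool} {query : List Bool → Word}
    {votes : List Bool → List Vec} {out : List Bool → List Bool → Bool} (hw : 1 ≤ w) (hn : n ≤ w)
    (hX : ∀ a, a.length ≤ n → ∀ v ∈ votes a, 6 * v.length + 4 ≤ 2 ^ B)
    (hquery : ∀ a, a.length ≤ n → (query a).length ≤ W)
    (hW : ∀ a, a.length ≤ n → ∀ v ∈ votes a, ∀ e ∈ v, ∀ x ∈ e.2, x.length ≤ W) :
    ∀ e ∈ comp M n w stop query votes out, e.2.length ≤ nf w B * w ∧ ∀ x ∈ e.2, x.length ≤ W := by
  intro e he
  obtain ⟨a, b, ha, hok, he⟩ := mem_comp he
  rw [okv_iff] at hok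
  constructor
  · refine (mem_prodC_length (width_mem_cfacs hw hok.2) e he).trans
      (Nat.mul_le_mul_right _ (length_cfacs_le (by omega) hok.1 (hX a ha)))
  · intro x hx
    obtain ⟨v, hv, e', he', hx'⟩ := mem_prodC_word e he x hx
    exact word_mem_cfacs (fun l hl => hquery l (by omega)) (hW a ha) v hv e' he' x hx'

lemma length_answers_never (S : Set Word) (query : List Bool → Word) (j : ℕ) :
    (answers S (fun _ => false) query j).length = j := by
  classical
  induction j with
  | zero => simp [answers]
  | succ j ih => rw [answers]; simp [ih]

lemma answers_never_take (S : Set Word) (query : List Bool → Word) {i j : ℕ} (h : i ≤ j) :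
    (answers S (fun _ => false) query j).take i = answers S (fun _ => false) query i := by
  have h1 := answers_prefix_le (S := S) (stop := fun _ => false) (query := query) h
  rw [List.prefix_iff_eq_take, length_answers_never] at h1
  exact h1.symm

/-- The compiled vote decides. -/
theorem comp_spec (S : Set Word) {M n w B : ℕ} {stop : List Bool → Bool}
    {query : List Bool → Word} {votes : List Bool → List Vec}
    {out : List Bool → List Bool → Bool} (hB : 2 ≤ B) (hn : n ≤ w)
    (hX : ∀ a, a.length ≤ n → ∀ v ∈ votes a, 6 * v.length + 4 ≤ 2 ^ B)
    (hM : 2 ^ (B * nf w B) ≤ M) {a₀ : List Bool} (ha₀n : a₀.length ≤ n)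
    (ha₀ : a₀ = answers S (fun _ => false) query a₀.length) (hv₀ : valid stop a₀ = true)
    (hok₀ : okv w (votes a₀) = true) :
    0 < sc S (comp M n w stop query votes out) ↔
      out a₀ ((votes a₀).map fun v => open Classical in decide (0 < sc S v)) = true := by
  classical
  have hnf : w ≤ nf w B := by unfold nf; omega
  have hBw : w ≤ B * nf w B := hnf.trans (Nat.le_mul_of_pos_left _ (by omega))
  have h2w : 2 ^ w ≤ M := (Nat.pow_le_pow_right (by omega) hBw).trans hM
  let F : List Bool → ℤ := fun a => ((bools (votes a).length).map fun b =>
    sgn (out a b) * prodAt ((votes a).map (val S (votes a).length)) b).sum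
  -- the value for one path
  have h1 : ∀ a, a.length ≤ n → sc S (bif valid stop a && okv w (votes a) then
      (boolsC M (votes a).length).flatMap fun b => prodC M (cfacs query votes out a b) else []) =
      (if a = a₀ then 1 else 0) * F a := by
    intro a han
    cases hok : okv w (votes a)
    · rw [Bool.and_false, cond_false, sc_nil, if_neg (by rintro rfl; rw [hok] at hok₀; cases hok₀),
        zero_mul]
    · cases hv : valid stop a
      · rw [Bool.false_and, cond_false, sc_nil,
          if_neg (by rintro rfl; rw [hv] at hv₀; cases hv₀), zero_mul]
      · rw [Bool.and_self, cond_true]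
        have hok' := okv_iff.1 hok
        rw [boolsC_eq ((Nat.pow_le_pow_right (by omega) hok'.1).trans h2w), sc_flatMap]
        have heq : (a = answers S (fun _ => false) query a.length) ↔ a = a₀ := by
          constructor
          · intro h
            have hv' := valid_iff.1 hv
            have hv₀' := valid_iff.1 hv₀
            rcases lt_trichotomy a.length a₀.length with hlt | hlt | hlt
            · exfalso
              have h3 : a₀.take a.length = a := by
                rw [ha₀, answers_never_take S query hlt.le, ← h]
              have h4 := hv₀'.2 a.length hlt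
              rw [h3, hv'.1] at h4
              cases h4
            · rw [h, ha₀, hlt]
            · exfalso
              have h3 : a.take a₀.length = a₀ := by
                rw [h, answers_never_take S query hlt.le, ← ha₀]
              have h4 := hv'.2 a₀.length hlt
              rw [h3, hv₀'.1] at h4
              cases h4
          · rintro rfl
            exact ha₀
        simp only [F]
        rw [← List.sum_map_mul_left]
        congr 1
        refine List.map_congr_left fun b hb => ?_
        have hbl : b.length = (votes a).length := mem_bools.1 hb
        have h3 := length_mem_cfacs (query := query) (out := out) (b := b) hB (hX a han)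
        have h4 := prodC_spec (M := M) (fun v hv => (h3 v hv).1) (by
          refine (lens_le fun v hv => (h3 v hv).2).trans (le_trans ?_ hM)
          rw [← pow_mul]
          refine Nat.pow_le_pow_right (by omega) (Nat.mul_le_mul_left _ ?_)
          exact length_cfacs_le (by omega) hok'.1 (hX a han))
        rw [h4.2 S, prod_cfacs S query votes out a b hbl]
        by_cases h : a = a₀
        · rw [if_pos (heq.2 h), if_pos h]
        · rw [if_neg (fun h' => h (heq.1 h')), if_neg h]
  -- the value for one length
  have h5 : ∀ i ∈ List.range (n + 1), sc S ((boolsC M i).flatMap fun a =>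
      bif valid stop a && okv w (votes a) then (boolsC M (votes a).length).flatMap fun b =>
        prodC M (cfacs query votes out a b) else []) = (if i = a₀.length then 1 else 0) * F a₀ := by
    intro i hi
    rw [List.mem_range] at hi
    rw [boolsC_eq ((Nat.pow_le_pow_right (by omega) (show i ≤ w by omega)).trans h2w), sc_flatMap]
    have h6 : ∀ a ∈ bools i, sc S (bif valid stop a && okv w (votes a) then
        (boolsC M (votes a).length).flatMap fun b => prodC M (cfacs query votes out a b)
          else []) = (if a = a₀ then 1 else 0) * F a :=
      fun a ha => h1 a (by rw [mem_bools.1 ha]; omega)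
    rw [List.map_congr_left h6]
    by_cases h : i = a₀.length
    · rw [if_pos h, one_mul]
      exact sum_indicator (nodup_bools i) (mem_bools.2 h.symm) F
    · rw [if_neg h, zero_mul]
      apply List.sum_eq_zero
      intro x hx
      obtain ⟨a, ha, rfl⟩ := List.mem_map.1 hx
      rw [if_neg (by rintro rfl; exact h (mem_bools.1 ha).symm), zero_mul]
  have h2 : sc S (comp M n w stop query votes out) = F a₀ := by
    rw [comp, sc_flatMap, List.map_congr_left h5]
    exact sum_indicator (List.nodup_range) (List.mem_range.2 (by omega)) (fun _ => F a₀)
  rw [h2]
  have h3 := sign_comb (D := 9 ^ (votes a₀).length) (forall₂_val S (votes a₀).length (votes a₀))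
    (by
      intro A hA β
      obtain ⟨v, _, rfl⟩ := List.mem_map.1 hA
      exact val_nonneg _ _ _ _)
    (by rw [List.length_map]; exact two_mul_le_nine_pow _) (out a₀)
  rw [List.length_map] at h3
  exact h3

end Pool.Agent.Lib.MP_634427_lc.Votes
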