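import Pool.Agent.Lib.MP_634427_lc.LT.Weighted

/-!
# Candidate lists from weighted votes after an adaptive phase, with explicit bounds

The same algorithm as in `projCands_of_weighted`; the bounds for the number of the relevant words
and bundles in `S` are functions of the parameter, and the properties of the reduction are only
needed for the parameter in question.
-/

namespace Pool.Agent.Lib.MP_634427_lc

open BT KNo Hyb

/-- The core of the algorithm, with explicit bounds. -/
theorem exists_cands_core (S : Set Word) (k : ℕ) {α : Type} [Enc α] (m' : α → ℕ) (hm' : PT m')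
    (next : α → Word → List Bool → Option Word) (vec : α → Word → List Bool → List LT.Vote)
    (q P Q : α → ℕ) (hnext : PT fun p : α × Word × List Bool => next p.1 p.2.1 p.2.2)
    (hvec : PT fun p : α × Word × List Bool => vec p.1 p.2.1 p.2.2) (hq : PT q) (hP : PT P)
    (hQ : PT Q) :
    ∃ cand : α → List Word, PT cand ∧ ∀ a u, u.length = m' a →
      (∀ Ls : List Word, Ls.Nodup → (∀ s ∈ Ls, s ∈ S ∧ ∃ r tr, r.length ≤ m' a ∧
        Good (next a) S (r, tr) ∧ next a r tr = some s) → Ls.length < P a) →
      (∃ T : Finset (List Word), T.card ≤ Q a ∧ ∀ r tr, r.length ≤ m' a →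
        Good (next a) S (r, tr) → next a r tr = none → ∀ e ∈ vec a r tr,
          (e.2.length ≤ k ∧ ∀ w ∈ e.2, onlyZeros w = true) ∨
            (e.1.2 = [true] ∧ ((∀ w ∈ e.2, w ∈ S) ↔ e.2 ∈ T))) →
      (∀ r, r.length ≤ m' a → ∀ tr, Good (next a) S (r, tr) →
        tr.length ≤ q a ∧ turns (next a) (r, tr) ≤ k ∧
          (next a r tr = none → (par r u = true ↔ 0 < votes S (vec a r tr)))) → u ∈ cand a := by
  -- the size of the queries and of the vectors
  obtain ⟨kn, hkn⟩ := hnext.size_le
  obtain ⟨kv, hkv⟩ := hvec.size_le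
  let ℓ : α → ℕ := fun a => (sz a + (2 * m' a + 2 * q a + 1) + 1 + 2) ^ (kn + kv)
  have hℓ : PT ℓ := PT.pow (PT.add (PT.succ (PT.add (PT.size PT.id) (PT.succ (PT.add
    (PT.mul (PT.const 2) hm') (PT.mul (PT.const 2) hq))))) (PT.const 2)) (kn + kv)
  have hℓn : ∀ a r tr, r.length ≤ m' a → tr.length ≤ q a → sz (next a r tr) ≤ ℓ a := by
    intro a r tr hr htr
    have h3 := hkn (a, r, tr)
    simp only [sz_pair] at h3
    have h4 := sz_word_le r
    have h5 := sz_word_le tr
    have h8 : (sz a + (sz r + sz tr + 1) + 1 + 2) ^ kn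
        ≤ (sz a + (2 * m' a + 2 * q a + 1) + 1 + 2) ^ (kn + kv) :=
      (Nat.pow_le_pow_left (by omega) kn).trans (Nat.pow_le_pow_right (by omega) (by omega))
    exact h3.trans h8
  have hℓv : ∀ a r tr, r.length ≤ m' a → tr.length ≤ q a → sz (vec a r tr) ≤ ℓ a := by
    intro a r tr hr htr
    have h3 := hkv (a, r, tr)
    simp only [sz_pair] at h3
    have h4 := sz_word_le r
    have h5 := sz_word_le tr
    have h8 : (sz a + (sz r + sz tr + 1) + 1 + 2) ^ kv
        ≤ (sz a + (2 * m' a + 2 * q a + 1) + 1 + 2) ^ (kn + kv) :=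
      (Nat.pow_le_pow_left (by omega) kv).trans (Nat.pow_le_pow_right (by omega) (by omega))
    exact h3.trans h8
  -- the fingerprints
  let pr : α → ℕ := fun a => LT.nextPrime (2 * (ℓ a * (Q a * (2 * ℓ a + 1))))
  have hpr : PT pr := PT.nextPrime (PT.mul (PT.const 2) (PT.mul hℓ (PT.mul hQ
    (PT.succ (PT.mul (PT.const 2) hℓ)))))
  have hprp : ∀ a, (pr a).Prime := fun a => LT.nextPrime_prime _
  have hprbig : ∀ a, 2 * (ℓ a * (Q a * (2 * ℓ a + 1))) < pr a := fun a => LT.lt_nextPrime _
  -- the vectors
  let vt : α → Item → List LT.Num := fun a e => LT.wvec (ℓ a) k (pr a) (vec a e.1 e.2)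
  have hvt : PT fun p : α × Item => vt p.1 p.2 :=
    PT.wvec (hℓ.comp PT.fst) k (hpr.comp PT.fst) (fun p => (hprp p.1).pos) hvec
  let md : α → ℕ := fun a => LT.wdim (ℓ a) k (pr a)
  have hmd : PT md := PT.wdim hℓ k hpr
  have hmd0 : ∀ a, 0 < md a := fun a => Nat.succ_pos _
  let E : α → ℕ := fun a => 24 * md a
  have hE : PT E := PT.mul (PT.const 24) hmd
  have hE2 : ∀ a, 2 ≤ E a := fun a => by
    have := hmd0 a
    simp only [E]
    omega
  let θb : α → ℕ := fun a => 2 * (q a * (ℓ a + 1)) + 2
  have hθb : PT θb := PT.add (PT.mul (PT.const 2) (PT.mul hq (PT.succ hℓ))) (PT.const 2)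
  have hθb2 : ∀ a, 2 ≤ θb a := fun a => by simp only [θb]; omega
  let P1 : α → ℕ := fun a => P a + 1
  have hP1 : PT P1 := PT.succ hP
  have hP0 : ∀ a, 0 < P1 a := fun a => Nat.succ_pos _
  let ρ : α → ℕ := fun a => rhoC (P1 a) (θb a) (E a) k 1
  have hρ : PT ρ := pt_rhoC hP1 hθb hE k (PT.const 1)
  let K : α → ℕ := fun a => numC (ℓ a) (q a) (P1 a) k * (24 * md a ^ 2 * ρ a)
  have hK : PT K := PT.mul (pt_numC hℓ hq hP1 k) (PT.mul (PT.mul (PT.const 24) (PT.pow hmd 2)) hρ)
  -- the pruning procedure
  let colls : α → List Word → List (List Item) := fun a R =>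
    searchC (next a) (ℓ a) (q a) (P1 a) (θb a) (E a) k [] (R.map fun r => (r, []))
  have hcolls : PT fun p : α × List Word => colls p.1 p.2 := by
    have h1 : PT fun p : α × List Word =>
        ((p.1, (([] : List Word), p.2.map fun r => ((r, []) : Item))) :
          α × List Word × List Item) :=
      PT.pair PT.fst (PT.pair (PT.const [])
        (PT.map (f := fun (_ : α × List Word) r => ((r, []) : Item)) PT.snd
          (PT.pair PT.snd (PT.const []))))
    exact (pt_searchC (next := next) hnext hq hℓ hP1 hθb hE k).comp h1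
  let srch : α → List Word → List Word → List Word := fun a R B =>
    (colls a R).flatMap fun G => LT.isoAgree (md a) (vt a) B G
  have hsrch : PT fun p : α × List Word × List Word => srch p.1 p.2.1 p.2.2 := by
    exact pt_srch hcolls hvt hmd
  let prune : α → List Word → List Word → List Word := fun a R B =>
    bif R.isEmpty then B else B.filter fun w => decide (w ∈ srch a R B)
  have hprunePT : PT fun p : α × List Word × List Word => prune p.1 p.2.1 p.2.2 := by
    refine PT.cond (PT.isEmpty (PT.fst' PT.snd)) (PT.snd' PT.snd) ?_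
    refine PT.filter (PT.snd' PT.snd) (p := fun (p : α × List Word × List Word) w =>
      decide (w ∈ srch p.1 p.2.1 p.2.2)) ?_
    exact PT.memWord PT.snd (hsrch.comp PT.fst)
  have hIsPrune : ∀ a, Frame.IsPrune (prune a) (K a) (m' a) := by
    intro a
    refine ⟨?_, ?_, ?_⟩
    · intro R B w hw
      rcases R with _ | ⟨r, R⟩
      · exact hw
      · exact List.mem_of_mem_filter hw
    · intro R B hB
      rcases R with _ | ⟨r, R⟩
      · exact hB
      · exact hB.filter _
    · intro R B hB hR horth _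
      have hRpos : 0 < R.length := List.length_pos_of_ne_nil hR
      have hpr' : prune a R B = B.filter fun w => decide (w ∈ srch a R B) := by
        rcases R with _ | ⟨r, R⟩
        · exact absurd rfl hR
        · rfl
      have h1 : (srch a R B).length ≤ K a := by
        have hlen := length_searchC (next := next a) (ℓ := ℓ a) (q a) (P1 a) (θb a) (E a) (hP0 a) k
          [] (R.map fun r => (r, []))
        have hsh := shape_searchC (next := next a) (ℓ := ℓ a) (R := R) (q a) (hP0 a) (hθb2 a)
          (hE2 a) k [] (R.map fun r => (r, [])) 1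
          ⟨fun _ => true, fun _ => [], by rw [List.filter_true]⟩ (by simp)
        refine (length_flatMap_le _ _ (24 * md a ^ 2 * ρ a) fun G hG => ?_).trans
          (Nat.mul_le_mul_right _ hlen.1)
        obtain ⟨h2, h3⟩ := hsh G hG
        exact LT.length_isoAgree hB horth h2 hRpos h3
      refine le_trans ?_ h1
      have h2 : (prune a R B).Nodup := by rw [hpr']; exact hB.filter _
      exact (List.subperm_of_subset h2 fun w hw => by
        rw [hpr'] at hw
        simpa using (List.mem_filter.1 hw).2).length_le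
  obtain ⟨cand, hcand, hc⟩ := Frame.exists_candidates hm' prune K hprunePT hK hIsPrune
  refine ⟨cand, hcand, fun a u hu hLs hT hrun => hc a u hu ?_⟩
  obtain ⟨T, hTQ, hT⟩ := hT
  intro R B j hj hRj huB
  rcases R.eq_nil_or_concat with hR0 | ⟨R0, r0, hR0⟩
  · subst hR0
    exact huB
  have hRpos : 0 < R.length := by rw [hR0]; simp
  have hpr' : prune a R B = B.filter fun w => decide (w ∈ srch a R B) := by
    rcases R with _ | ⟨r, R⟩
    · simp at hRpos
    · rfl
  rw [hpr']
  refine List.mem_filter.2 ⟨huB, ?_⟩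
  rw [decide_eq_true_eq]
  have hpar : ∀ r ∈ R, par r (u.take j) = par r u := by
    intro r hr
    conv_rhs => rw [← List.take_append_drop j u]
    rw [par_append_of_le]
    rw [List.length_take, hu]
    exact le_min (hRj r hr) ((hRj r hr).trans hj)
  have hRm : ∀ r ∈ R, r.length ≤ m' a := fun r hr => (hRj r hr).trans hj
  -- the bundles of bounded size
  let T' : Finset (List Word) := T.filter fun κ => sz κ ≤ ℓ a
  have hT'Q : T'.card ≤ Q a := (Finset.card_filter_le _ _).trans hTQ
  have hTcd : ∀ κ ∈ T', (LT.cd κ).length ≤ 2 * ℓ a + 1 := by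
    intro κ hκ
    have h1 := (Finset.mem_filter.1 hκ).2
    rw [LT.length_cd]
    omega
  have hredT : RedT (next a) S R (q a) k :=
    ⟨fun r hr tr h => (hrun r (hRm r hr) tr h).1, fun r hr tr h => (hrun r (hRm r hr) tr h).2.1⟩
  have hqlen : ∀ r ∈ R, ∀ tr s, Good (next a) S (r, tr) → next a r tr = some s →
      s.length ≤ ℓ a := by
    intro r hr tr s hgood hnx
    have h3 := hℓn a r tr (hRm r hr) (hrun r (hRm r hr) tr hgood).1
    rw [hnx, sz_some] at h3
    have h7 := length_le_sz s
    omega
  obtain ⟨G, hG, hGpos, hGbad, hGR, hGnone⟩ := exists_cover (θb := θb a) (E := E a) hredT hqlen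
    (hP0 a) (by simp only [θb]; omega) (hθb2 a) (hE2 a) (by
      intro Ls hLs' hmemL
      refine (hLs Ls hLs' fun s hs => ?_).trans (Nat.lt_succ_self _)
      obtain ⟨hsS, r, hr, tr, hgood, hnx⟩ := hmemL s hs
      exact ⟨hsS, r, tr, hRm r hr, hgood, hnx⟩) k [] (R.map fun r => (r, []))
    List.nodup_nil (by simp) (by
      intro e he
      obtain ⟨r, hr, rfl⟩ := List.mem_map.1 he
      exact hr) (by rw [List.length_map]; exact hRpos) (by
      have : bad (next a) S (R.map fun r => (r, [])) = 0 := by
        classical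
        unfold bad
        rw [List.length_eq_zero_iff, List.filter_eq_nil_iff]
        intro e he
        obtain ⟨r, hr, rfl⟩ := List.mem_map.1 he
        simpa using Good.nil r
      rw [this]
      simp) (by
      intro e he _
      obtain ⟨r, hr, rfl⟩ := List.mem_map.1 he
      exact ⟨by simp [KNo.free, KNo.blk], Nat.le_add_right _ _⟩)
  refine List.mem_flatMap.2 ⟨G, hG, ?_⟩
  classical
  refine LT.mem_isoAgree (hmd0 a) (fun i => (LT.wfun S T' (ℓ a) k (pr a)).getD i 0)
    (fun i => LT.abs_wfun_le _ _ _ _ _ i) (fun e => Good (next a) S e) ?_ hGpos ?_ huB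
  · intro e he hg
    have hn := hGnone e he hg
    obtain ⟨h1, _, h3⟩ := hrun e.1 (hRm _ (hGR e he)) e.2 hg
    have h4 := hT e.1 e.2 (hRm _ (hGR e he)) hg hn
    have h5 := h3 hn
    rw [← hpar _ (hGR e he)] at h5
    have hszv := hℓv a e.1 e.2 (hRm _ (hGR e he)) h1
    refine LT.pairing_sign (lam := 2 * ℓ a + 1) (hprp a) hTcd ?_ ?_ _ h5
    · intro x hx
      have h6 := sz_mem_le hx
      rw [sz_prod] at h6
      have h7 : ∀ w ∈ x.2, w.length ≤ ℓ a := by
        intro w hw
        have h7 := sz_mem_le hw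
        have h8 := length_le_sz w
        omega
      rcases h4 x hx with ⟨h8, h9⟩ | ⟨h8, h9⟩
      · exact Or.inl (LT.mem_keysT.2 ⟨h8, fun w hw => ⟨h9 w hw, h7 w hw⟩⟩)
      · right
        refine ⟨h8, ⟨fun h => h9.2 (Finset.mem_filter.1 h).1, fun h => ?_⟩, ?_⟩
        · exact Finset.mem_filter.2 ⟨h9.1 h, by omega⟩
        · rw [LT.length_cd]
          omega
    · refine lt_of_le_of_lt ?_ (hprbig a)
      exact Nat.mul_le_mul_left _ (Nat.mul_le_mul ((length_le_sz _).trans hszv)
        (Nat.mul_le_mul_right _ hT'Q))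
  · refine le_trans (le_of_eq ?_) hGbad
    unfold bad
    rfl

end Pool.Agent.Lib.MP_634427_lc
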