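import Pool.Agent.Lib.MP_634427_lc.Final
import Pool.Agent.Lib.MP_634427_lc.Votes.Model

/-!
# Randomised algorithms from padded candidate lists
-/

namespace Pool.Agent.Lib.MP_634427_lc.Votes

open BT

/-- Lists of candidates for unique witnesses are computed in time `2 ^ bound t d n` for some `d`. -/
def PadCands (t : ℕ → ℕ) : Prop :=
  ∀ {α : Type} [Enc α] (Rel : α × Word → Bool) (m : α → ℕ), PT Rel → PT m →
    ∃ (cand : α × ℕ → List Word) (d : ℕ), PT cand ∧ ∀ a M u, 2 ^ bound t d (sz a) ≤ M →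
      u.length = m a → Rel (a, u) = true →
      (∀ u', u'.length = m a → Rel (a, u') = true → u' = u) → u ∈ cand (a, M)

lemma pow_add_mono {e d n : ℕ} (h0 : 0 < e) (h : e ≤ d) : n ^ e + e ≤ n ^ d + d := by
  rcases Nat.eq_zero_or_pos n with rfl | hn
  · rw [zero_pow (by omega), zero_pow (by omega)]; omega
  · exact Nat.add_le_add (Nat.pow_le_pow_right hn h) h

lemma log_pos_le {t : ℕ → ℕ} (hlog : ∀ n, Nat.log 2 n ≤ t n) {n : ℕ} (h : 2 ≤ n) : 1 ≤ t n :=
  le_trans (Nat.log_pos (by norm_num) h) (hlog n)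

/-- Bounds of polynomials are bounds. -/
lemma bound_poly {t : ℕ → ℕ} (ht : Monotone t) (hlog : ∀ n, Nat.log 2 n ≤ t n) (d g : ℕ) :
    ∃ d', ∀ n N, N ≤ (n + 2) ^ g → bound t d N ≤ bound t d' n := by
  obtain ⟨e, he⟩ := PB.add (PB.pow (⟨g, fun n => le_rfl⟩ : PB fun n => (n + 2) ^ g) d) (PB.const d)
  obtain ⟨f, hf⟩ : ∃ f, f = 3 ^ e := ⟨_, rfl⟩
  have hf0 : 0 < f := by rw [hf]; positivity
  refine ⟨f + 2 + d, fun n N hN => ?_⟩
  have h1 : N ^ d + d ≤ n ^ (f + 2 + d) + (f + 2 + d) := by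
    refine le_trans (Nat.add_le_add_right (Nat.pow_le_pow_left hN d) d) ?_
    refine (he n).trans ((pow_le_pow_add e n).trans ?_)
    rw [← hf]
    exact pow_add_mono hf0 (by omega)
  have h2 : 1 ≤ t (n ^ (f + 2 + d) + (f + 2 + d)) := log_pos_le hlog (by omega)
  unfold bound
  calc t (N ^ d + d) ^ d ≤ t (n ^ (f + 2 + d) + (f + 2 + d)) ^ d :=
        Nat.pow_le_pow_left (ht h1) d
    _ ≤ _ := Nat.pow_le_pow_right h2 (by omega)

theorem inRTime_of_padCands {t : ℕ → ℕ} (ht : Monotone t) (hlog : ∀ n, Nat.log 2 n ≤ t n)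
    (h : PadCands t) (L : Set Word) (hL : InNP L) : InRTime t L := by
  obtain ⟨V, c, hV, hL⟩ := hL
  let M : Word → ℕ := fun x => wb c x + 1
  have hM : PT M := PT.succ (pt_wb c)
  let n : Word → ℕ := fun x => 2 * M x
  have hn : PT n := PT.mul (PT.const 2) hM
  -- the relation with a prescribed weight
  let Rel : (Word × (Word × ℕ)) × Word → Bool := fun p =>
    relx V (p.1.1, p.2) && decide (wt (lg (n p.1.1)).1 p.1.2.1 p.2 = p.1.2.2)
  have hRel : PT Rel := PT.and ((pt_relx hV).comp (PT.pair (PT.fst' PT.fst) PT.snd))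
    (PT.eqNat (pt_wt (hn.comp (PT.fst' PT.fst)) (PT.fst' (PT.snd' PT.fst)) PT.snd)
      (PT.snd' (PT.snd' PT.fst)))
  obtain ⟨cand, d, hcand, hc⟩ := h Rel (fun a => M a.1) hRel (hM.comp PT.fst)
  -- the randomised algorithm
  let A : (Word × Word) × Word → Bool := fun p =>
    (List.range (M p.1.1 * (lg (n p.1.1)).2 + 1)).any fun W =>
      (cand ((p.1.1, (p.1.2, W)), p.2.length)).any fun u =>
        decide (u.length = M p.1.1) && relx V (p.1.1, u)
  have hA : PT A := by
    refine PT.any (p := fun (p : (Word × Word) × Word) W =>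
      (cand ((p.1.1, (p.1.2, W)), p.2.length)).any fun u =>
        decide (u.length = M p.1.1) && relx V (p.1.1, u))
      (PT.range (PT.succ (PT.mul (hM.comp (PT.fst' PT.fst))
        (PT.snd' (pt_lg (hn.comp (PT.fst' PT.fst))))))) ?_
    refine PT.any (γ := ((Word × Word) × Word) × ℕ)
      (l := fun q => cand ((q.1.1.1, (q.1.1.2, q.2)), q.1.2.length))
      (p := fun q u => decide (u.length = M q.1.1.1) && relx V (q.1.1.1, u)) ?_ ?_
    · exact hcand.comp (PT.pair (PT.pair (PT.fst' (PT.fst' PT.fst))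
        (PT.pair (PT.snd' (PT.fst' PT.fst)) PT.snd)) (PT.length (PT.snd' PT.fst)))
    · exact PT.and (PT.eqNat (PT.length PT.snd) (hM.comp (PT.fst' (PT.fst' (PT.fst' PT.fst)))))
        ((pt_relx hV).comp (PT.pair (PT.fst' (PT.fst' (PT.fst' PT.fst))) PT.snd))
  -- the number of random bits
  obtain ⟨e, he⟩ := PB.mul (F := fun k => k ^ c + c + 1) (G := fun k => 2 * (k ^ c + c + 1))
    (PB.add (PB.add (PB.pow PB.id c) (PB.const c)) (PB.const 1))
    (PB.mul (PB.const 2) (PB.add (PB.add (PB.pow PB.id c) (PB.const c)) (PB.const 1)))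
  -- the size of the parameter
  obtain ⟨g, hg⟩ : ∃ g, ∀ (x y : Word) (W : ℕ), y.length = x.length ^ (3 ^ e) + 3 ^ e →
      W ≤ M x * (lg (n x)).2 → sz (x, (y, W)) ≤ (x.length + 2) ^ g := by
    obtain ⟨g, hg⟩ := PB.add (PB.add (PB.mul (PB.const 2) PB.id) (PB.add (PB.add
      (PB.mul (PB.const 2) (PB.add (PB.pow PB.id (3 ^ e)) (PB.const (3 ^ e))))
      (PB.mul (PB.add (PB.add (PB.pow PB.id c) (PB.const c)) (PB.const 1))
        (PB.add (PB.mul (PB.const 4) (PB.add (PB.add (PB.pow PB.id c) (PB.const c)) (PB.const 1)))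
          (PB.const 1)))) (PB.const 1))) (PB.const 1)
    refine ⟨g, fun x y W hy hW => le_trans ?_ (hg x.length)⟩
    have h1 := sz_word_le x
    have h2 := sz_word_le y
    have h3 : (lg (n x)).2 ≤ 4 * (x.length ^ c + c + 1) + 1 := by
      rw [lg_two_pow]
      refine (lg_le _).trans ?_
      simp only [n, M, wb]
      omega
    have h4 : M x * (lg (n x)).2 ≤
        (x.length ^ c + c + 1) * (4 * (x.length ^ c + c + 1) + 1) := Nat.mul_le_mul_left _ h3
    simp only [sz_pair, sz_nat]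
    rw [hy] at h2
    omega
  obtain ⟨d', hd'⟩ := bound_poly ht hlog d g
  refine ⟨A, 3 ^ e, d', hA, fun x => ⟨fun hx => ?_, fun hx y => ?_⟩⟩
  · let F : Set Word := {u | u.length = M x ∧ relx V (x, u) = true}
    have hF : F.Nonempty := by
      obtain ⟨u, hu, hVu⟩ := (hL x).1 hx
      exact ⟨pad (wb c x) u, length_pad hu, by rw [relx_pad]; exact hVu⟩
    have hq : M x * (lg (n x)).1 ≤ x.length ^ (3 ^ e) + 3 ^ e := by
      refine le_trans ?_ (pow_le_pow_add e x.length)
      refine le_trans ?_ (he x.length)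
      exact Nat.mul_le_mul_left _ (lg_fst_le _)
    have hiso := isolation _ (M x) (lg (n x)).1 hq (le_lg (n x)) F hF fun u hu => hu.1
    refine hiso.trans (Nat.mul_le_mul_left 2 ?_)
    have himp : ∀ y : Fin (x.length ^ (3 ^ e) + 3 ^ e) → Bool,
        (∃ W, ∃! u, u ∈ F ∧ wt (lg (n x)).1 (List.ofFn y) u = W) →
          A ((x, List.ofFn y), List.replicate (2 ^ bound t d' x.length) false) = true := ?_
    · exact Nat.card_le_card_of_injective (Subtype.map id himp)
        (Subtype.map_injective himp Function.injective_id)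
    rintro y ⟨W, u, ⟨⟨hu1, hu2⟩, hu3⟩, hu4⟩
    have hWle : W ≤ M x * (lg (n x)).2 := by
      rw [lg_two_pow, ← hu3]
      have := wt_le (lg (n x)).1 (List.ofFn y) u
      rwa [hu1] at this
    simp only [A, List.any_eq_true]
    refine ⟨W, List.mem_range.2 (by omega), u, ?_, ?_⟩
    · refine hc (x, (List.ofFn y, W)) _ u ?_ hu1 ?_ ?_
      · rw [List.length_replicate]
        refine Nat.pow_le_pow_right (by omega) (hd' _ _ (hg x _ W (by simp) hWle))
      · simp only [Rel, Bool.and_eq_true, decide_eq_true_eq]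
        exact ⟨hu2, hu3⟩
      · intro u' hl' hu'
        simp only [Rel, Bool.and_eq_true, decide_eq_true_eq] at hu'
        exact hu4 u' ⟨⟨hl', hu'.1⟩, hu'.2⟩
    · simp only [Bool.and_eq_true, decide_eq_true_eq]
      exact ⟨hu1, hu2⟩
  · rw [Bool.eq_false_iff]
    intro hy
    simp only [A, List.any_eq_true, Bool.and_eq_true, decide_eq_true_eq] at hy
    obtain ⟨W, _, u', _, h1, h2⟩ := hy
    obtain ⟨u, hu, _, hVu⟩ := of_relx h2 h1
    exact hx ((hL x).2 ⟨u, hu, hVu⟩)

end Pool.Agent.Lib.MP_634427_lc.Votes
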