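import Pool.Agent.Lib.MP_634427_lc.Deep.Core
import Pool.Agent.Lib.MP_634427_lc.Votes.Expand
import Pool.Agent.Lib.MP_634427_lc.Votes.Rtime

/-!
# Padded candidate lists from vote reductions
-/

namespace Pool.Agent.Lib.MP_634427_lc.Votes

open BT KNo Hyb

lemma exists_bound {t : ℕ → ℕ} (ht : Monotone t) (hlog : ∀ n, Nat.log 2 n ≤ t n) (g : ℕ)
    {F : ℕ → ℕ} (hF : PB F) : ∃ d, ∀ s, F (t ((s + 2) ^ g)) ≤ bound t d s := by
  obtain ⟨e, he⟩ := hF
  obtain ⟨f, hf⟩ : ∃ f, f = 3 ^ g := ⟨_, rfl⟩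
  have hf0 : 0 < f := by rw [hf]; positivity
  refine ⟨f + 16 + 2 * e, fun s => ?_⟩
  have h1 : (s + 2) ^ g ≤ s ^ (f + 16 + 2 * e) + (f + 16 + 2 * e) := by
    refine (pow_le_pow_add g s).trans ?_
    rw [← hf]
    exact pow_add_mono hf0 (by omega)
  have h2 := ht h1
  have h3 : 4 ≤ t (s ^ (f + 16 + 2 * e) + (f + 16 + 2 * e)) := by
    refine le_trans ?_ (hlog _)
    exact Nat.le_log_of_pow_le (by norm_num) (by omega)
  unfold bound
  set τ := t ((s + 2) ^ g)
  set T := t (s ^ (f + 16 + 2 * e) + (f + 16 + 2 * e))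
  have h4 : τ + 2 ≤ T ^ 2 := by nlinarith
  calc F τ ≤ (τ + 2) ^ e := he τ
    _ ≤ (T ^ 2) ^ e := Nat.pow_le_pow_left h4 e
    _ = T ^ (2 * e) := by rw [← pow_mul]
    _ ≤ T ^ (f + 16 + 2 * e) := Nat.pow_le_pow_right (by omega) (by omega)

/-- the exponent of the number of the bundles and of the words of `S` -/
def expo₀ (g c cS τ : ℕ) : ℕ :=
  (g * (τ + 1) + 2 + (τ ^ c + 1)) * nf (τ ^ c + 1) (g * (τ + 1) + 2 + (τ ^ c + 1)) +
    (τ ^ cS + 1) * (nf (τ ^ c + 1) (g * (τ + 1) + 2 + (τ ^ c + 1)) * (τ ^ c + 1))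

/-- the exponent of the bound for everything -/
def expo (g c cS e₀ τ : ℕ) : ℕ :=
  (expo₀ g c cS τ + τ + (τ ^ c + 1) + 3) * (e₀ * (τ ^ c + 1 + 1) ^ 2) + expo₀ g c cS τ +
    (τ ^ c + 1)

lemma pb_expo (g c cS e₀ : ℕ) : PB (expo g c cS e₀) := by
  have hw : PB fun τ => τ ^ c + 1 := PB.add (PB.pow PB.id c) (PB.const 1)
  have hB : PB fun τ => g * (τ + 1) + 2 + (τ ^ c + 1) :=
    PB.add (PB.add (PB.mul (PB.const g) (PB.add PB.id (PB.const 1))) (PB.const 2)) hw
  have hnf : PB fun τ => nf (τ ^ c + 1) (g * (τ + 1) + 2 + (τ ^ c + 1)) :=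
    PB.add (PB.add (PB.const 1) hw) (PB.mul hw (PB.mul (PB.mul (PB.const 2) hw)
      (PB.add hB (PB.const 1))))
  have h0 : PB (expo₀ g c cS) :=
    PB.add (PB.mul hB hnf) (PB.mul (PB.add (PB.pow PB.id cS) (PB.const 1)) (PB.mul hnf hw))
  exact PB.add (PB.add (PB.mul (PB.add (PB.add (PB.add h0 PB.id) hw) (PB.const 3))
    (PB.mul (PB.const e₀) (PB.pow (PB.add hw (PB.const 1)) 2))) h0) hw

lemma PT.nxt' {γ : Type} [Enc γ] {stop : γ → List Bool → Bool} {query : γ → List Bool → Word}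
    {l : γ → List Bool} (hs : PT fun c => stop c (l c)) (hq : PT fun c => query c (l c)) :
    PT fun c => nxt (stop c) (query c) (l c) :=
  PT.cond hs (PT.const none) (PT.some hq)

/-- Vote reductions of NP sets to `S` give padded candidate lists. -/
theorem padCands_of_vote {t : ℕ → ℕ} (ht : Monotone t) (hlog : ∀ n, Nat.log 2 n ≤ t n)
    (S : Set Word) (hS : ∃ c, ∀ n, {w ∈ S | w.length ≤ n}.ncard ≤ 2 ^ bound t c n)
    (hard : ∀ A, InNP A → VoteReducible t A S) : PadCands t := by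
  classical
  intro α _ Rel m hRel hm
  obtain ⟨A, hA, hmem⟩ := exists_parity_set Rel m hRel hm
  obtain ⟨stop, query, vote, out, c, hstop, hquery, hvote, hout, hred⟩ := hard A hA
  obtain ⟨cS, hS⟩ := hS
  let cw : α → Word → Word := fun a r => code (enc (a, (r, true)))
  have hcwlen : ∀ a r, (cw a r).length = 2 * (sz a + (sz r + 1 + 1) + 1) + 1 :=
    fun a r => length_code _
  have hcw : PT fun p : α × Word => cw p.1 p.2 :=
    PT.code (pt_enc (PT.pair PT.fst (PT.pair PT.snd (PT.const true))))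
  -- the number of steps
  let L : α → ℕ := fun a => 2 * (sz a + (2 * m a + 1 + 1) + 1) + 1
  have hL : PT L := PT.succ (PT.mul (PT.const 2) (PT.succ (PT.add (PT.size PT.id)
    (PT.succ (PT.succ (PT.mul (PT.const 2) hm))))))
  have hLcw : ∀ a r, r.length ≤ m a → (cw a r).length ≤ L a := by
    intro a r hr
    rw [hcwlen]
    have := sz_word_le r
    simp only [L]
    omega
  let q : α → ℕ := fun a => L a ^ c + c
  have hq : PT q := PT.add (PT.pow hL c) (PT.const c)
  -- the adaptive procedure and the final vote; the parameter contains the guesses `M` and `w`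
  let next : α × (ℕ × ℕ) → Word → List Bool → Option Word := fun p r l =>
    nxt (fun l => stop (cw p.1 r, l)) (fun l => query (cw p.1 r, l)) l
  let cmp : α × (ℕ × ℕ) → Word → List Bool → Vec := fun p r l =>
    comp p.2.1 0 p.2.2 (fun a => stop (cw p.1 r, l ++ a))
      (fun a => query (cw p.1 r, l ++ a))
      (fun a => (vote (cw p.1 r, l ++ a)).map (expand p.2.1 p.2.2))
      (fun a b => out ((cw p.1 r, l ++ a), b))
  let vec : α × (ℕ × ℕ) → Word → List Bool → List LT.Vote := fun p r l => toVote (cmp p r l)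
  have hcwl : PT fun p : (α × (ℕ × ℕ)) × Word × List Bool => (cw p.1.1 p.2.1, p.2.2) :=
    PT.pair (hcw.comp (PT.pair (PT.fst' PT.fst) (PT.fst' PT.snd))) (PT.snd' PT.snd)
  have hnext : PT fun p : (α × (ℕ × ℕ)) × Word × List Bool => next p.1 p.2.1 p.2.2 :=
    PT.nxt' (γ := (α × (ℕ × ℕ)) × Word × List Bool)
      (stop := fun p l => stop (cw p.1.1 p.2.1, l))
      (query := fun p l => query (cw p.1.1 p.2.1, l)) (l := fun p => p.2.2)
      (hstop.comp hcwl) (hquery.comp hcwl)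
  have hin : PT fun p : ((α × (ℕ × ℕ)) × Word × List Bool) × List Bool =>
      ((cw p.1.1.1 p.1.2.1, p.1.2.2 ++ p.2) : Word × List Bool) :=
    PT.pair (hcw.comp (PT.pair (PT.fst' (PT.fst' PT.fst)) (PT.fst' (PT.snd' PT.fst))))
      (PT.append (PT.snd' (PT.snd' PT.fst)) PT.snd)
  have hcmp : PT fun p : (α × (ℕ × ℕ)) × Word × List Bool => cmp p.1 p.2.1 p.2.2 := by
    refine pt_comp (γ := (α × (ℕ × ℕ)) × Word × List Bool) (M := fun p => p.1.2.1)
      (n := fun _ => 0) (w := fun p => p.1.2.2)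
      (stop := fun p a => stop (cw p.1.1 p.2.1, p.2.2 ++ a))
      (query := fun p a => query (cw p.1.1 p.2.1, p.2.2 ++ a))
      (votes := fun p a => (vote (cw p.1.1 p.2.1, p.2.2 ++ a)).map (expand p.1.2.1 p.1.2.2))
      (out := fun p a b => out ((cw p.1.1 p.2.1, p.2.2 ++ a), b))
      (PT.fst' (PT.snd' PT.fst)) (PT.const 0)
      (PT.snd' (PT.snd' PT.fst)) (hstop.comp hin) (hquery.comp hin) ?_ ?_
    · exact PT.map (f := fun (p : ((α × (ℕ × ℕ)) × Word × List Bool) × List Bool) v =>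
        expand p.1.1.2.1 p.1.1.2.2 v) (hvote.comp hin)
        (pt_expand (PT.fst' (PT.snd' (PT.fst' (PT.fst' PT.fst))))
          (PT.snd' (PT.snd' (PT.fst' (PT.fst' PT.fst)))) PT.snd)
    · exact hout.comp (PT.pair (hin.comp PT.fst) PT.snd)
  have hvec : PT fun p : (α × (ℕ × ℕ)) × Word × List Bool => vec p.1 p.2.1 p.2.2 :=
    PT.map (f := fun _ (e : Bool × List Word) => (((e.1, [true]), e.2) : LT.Vote)) hcmp
      (PT.pair (PT.pair (PT.fst' PT.snd) (PT.const [true])) (PT.snd' PT.snd))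
  obtain ⟨cand, e₀, hcand, hc⟩ := exists_cands_deep S 0 (fun p : α × (ℕ × ℕ) => m p.1)
    (hm.comp PT.fst) next vec (fun p => q p.1) (fun p => p.2.1 + 1) (fun p => p.2.1)
    (fun p => p.2.2) hnext hvec (hq.comp PT.fst) (PT.succ (PT.fst' PT.snd)) (PT.fst' PT.snd)
    (PT.snd' PT.snd)
  -- the polynomial bounds
  obtain ⟨km, hkm⟩ := hm.size_le
  have hmk : ∀ a, m a ≤ (sz a + 2) ^ km := fun a => by
    have := hkm a; rwa [sz_nat] at this
  obtain ⟨kq, hkq⟩ := hquery.size_le
  obtain ⟨kv, hkv⟩ := hvote.size_le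
  have hLPB : PB fun s => 2 * (s + (2 * (s + 2) ^ km + 1 + 1) + 1) + 1 :=
    PB.add (PB.mul (PB.const 2) (PB.add (PB.add PB.id (PB.add (PB.add (PB.mul (PB.const 2)
      (⟨km, fun n => le_rfl⟩ : PB fun n => (n + 2) ^ km)) (PB.const 1)) (PB.const 1)))
      (PB.const 1))) (PB.const 1)
  obtain ⟨g, hg⟩ : ∃ g, ∀ s, (2 * (s + (2 * (s + 2) ^ km + 1 + 1) + 1) + 1) +
      ((2 * (s + (2 * (s + 2) ^ km + 1 + 1) + 1) + 1) ^ c + c) +
      (2 * (2 * (s + (2 * (s + 2) ^ km + 1 + 1) + 1) + 1) +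
        2 * (2 * ((2 * (s + (2 * (s + 2) ^ km + 1 + 1) + 1) + 1) ^ c + c)) + 1 + 2) ^ kq +
      (6 * (2 * (2 * (s + (2 * (s + 2) ^ km + 1 + 1) + 1) + 1) +
        2 * (2 * ((2 * (s + (2 * (s + 2) ^ km + 1 + 1) + 1) + 1) ^ c + c)) + 1 + 2) ^ kv + 4) ≤
      (s + 2) ^ g := by
    have h1 : PB fun s => (2 * (s + (2 * (s + 2) ^ km + 1 + 1) + 1) + 1) ^ c + c :=
      PB.add (PB.pow hLPB c) (PB.const c)
    have h2 : PB fun s => 2 * (2 * (s + (2 * (s + 2) ^ km + 1 + 1) + 1) + 1) +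
        2 * (2 * ((2 * (s + (2 * (s + 2) ^ km + 1 + 1) + 1) + 1) ^ c + c)) + 1 + 2 :=
      PB.add (PB.add (PB.add (PB.mul (PB.const 2) hLPB) (PB.mul (PB.const 2)
        (PB.mul (PB.const 2) h1))) (PB.const 1)) (PB.const 2)
    exact PB.add (PB.add (PB.add hLPB h1) (PB.pow h2 kq))
      (PB.add (PB.mul (PB.const 6) (PB.pow h2 kv)) (PB.const 4))
  obtain ⟨g', hg'⟩ : ∃ g', ∀ s, ((s + 2) ^ g) ^ c + c + (((s + 2) ^ g) ^ cS + cS) + (s + 2) ≤
      (s + 2) ^ g' := by
    have h1 : PB fun s => (s + 2) ^ g := ⟨g, fun n => le_rfl⟩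
    exact PB.add (PB.add (PB.add (PB.pow h1 c) (PB.const c)) (PB.add (PB.pow h1 cS) (PB.const cS)))
      (PB.add PB.id (PB.const 2))
  obtain ⟨d, hd⟩ := exists_bound ht hlog g' (pb_expo g c cS e₀)
  refine ⟨fun p => (List.range ((lg p.2).1 + 1)).flatMap fun w =>
    (List.range ((lg p.2).1 + 1)).flatMap fun v => cand ((p.1, (dbl p.2 v, w)), p.2), d, ?_, ?_⟩
  · have hlg : PT fun p : α × ℕ => (lg p.2).1 + 1 := PT.succ (PT.fst' (pt_lg PT.snd))
    refine PT.flatMap (f := fun (p : α × ℕ) w =>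
      (List.range ((lg p.2).1 + 1)).flatMap fun v => cand ((p.1, (dbl p.2 v, w)), p.2))
      (PT.range hlg) ?_
    refine PT.flatMap (f := fun (p : (α × ℕ) × ℕ) v => cand ((p.1.1, (dbl p.1.2 v, p.2)), p.1.2))
      (PT.range (hlg.comp PT.fst)) ?_
    exact hcand.comp (PT.pair (PT.pair (PT.fst' (PT.fst' PT.fst))
      (PT.pair (pt_dbl (PT.snd' (PT.fst' PT.fst)) PT.snd) (PT.snd' PT.fst)))
      (PT.snd' (PT.fst' PT.fst)))
  intro a M u hM hu hRu huniq
  -- the parameters
  obtain ⟨τ, hτ⟩ : ∃ τ, τ = t ((sz a + 2) ^ g') := ⟨_, rfl⟩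
  obtain ⟨w, hw⟩ : ∃ w, w = τ ^ c + 1 := ⟨_, rfl⟩
  obtain ⟨B, hB⟩ : ∃ B, B = g * (τ + 1) + 2 + (τ ^ c + 1) := ⟨_, rfl⟩
  obtain ⟨W, hW⟩ : ∃ W, W = (sz a + 2) ^ g := ⟨_, rfl⟩
  obtain ⟨v, hv⟩ : ∃ v, v = B * nf w B + (τ ^ cS + 1) * (nf w B * w) := ⟨_, rfl⟩
  obtain ⟨M₀, hM₀⟩ : ∃ M₀, M₀ = 2 ^ v := ⟨_, rfl⟩
  have hexpo : (v + τ + w + 3) * (e₀ * (w + 1) ^ 2) + v + w ≤ bound t d (sz a) := by
    have := hd (sz a)
    rw [← hτ] at this
    rw [hv, hw, hB]
    exact this
  have hMv : 2 ^ v ≤ M := (Nat.pow_le_pow_right (by omega) (by omega)).trans hM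
  have hMw : 2 ^ w ≤ M := (Nat.pow_le_pow_right (by omega) (by omega)).trans hM
  have hMC : 2 ^ ((v + τ + w + 3) * (e₀ * (w + 1) ^ 2)) ≤ M :=
    (Nat.pow_le_pow_right (by omega) (by omega)).trans hM
  have hdbl : dbl M v = M₀ := by rw [hM₀]; exact dbl_eq hMv
  have hM1 : 2 ^ (B * nf w B) ≤ M₀ := by
    rw [hM₀]; exact Nat.pow_le_pow_right (by omega) (by omega)
  have hM2 : 2 ^ ((τ ^ cS + 1) * (nf w B * w)) ≤ M₀ := by
    rw [hM₀]; exact Nat.pow_le_pow_right (by omega) (by omega)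
  have hB2 : 2 ≤ B := by omega
  have hw1 : 1 ≤ w := by omega
  have hnf : w ≤ nf w B := by unfold nf; omega
  have hBw : w ≤ B * nf w B := hnf.trans (Nat.le_mul_of_pos_left _ (by omega))
  have hbc : ∀ N, N ≤ W → bound t c N ≤ w := by
    intro N hN
    have h1 : N ^ c + c ≤ (sz a + 2) ^ g' := by
      have := hg' (sz a)
      have h2 : N ^ c ≤ ((sz a + 2) ^ g) ^ c := Nat.pow_le_pow_left (hN.trans hW.le) c
      omega
    have h2 : t (N ^ c + c) ≤ τ := by rw [hτ]; exact ht h1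
    have h3 : bound t c N ≤ τ ^ c := Nat.pow_le_pow_left h2 c
    omega
  have hbS : bound t cS W ≤ τ ^ cS := by
    have h1 : W ^ cS + cS ≤ (sz a + 2) ^ g' := by
      have := hg' (sz a)
      rw [hW]
      omega
    have h2 : t (W ^ cS + cS) ≤ τ := by rw [hτ]; exact ht h1
    exact Nat.pow_le_pow_left h2 cS
  have hsz : sz a + 2 ≤ 2 ^ (τ + 1) := by
    have h1 : Nat.log 2 (sz a + 2) ≤ τ := by
      refine (hlog _).trans ?_
      rw [hτ]
      refine ht ?_
      have := hg' (sz a)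
      omega
    exact (Nat.lt_pow_succ_log_self (by norm_num) _).le.trans
      (Nat.pow_le_pow_right (by omega) (by omega))
  have hCsz : (sz (a, (M₀, w)) + 2) ^ (e₀ * (w + 1) ^ 2) ≤ M := by
    refine le_trans ?_ hMC
    rw [pow_mul 2]
    refine Nat.pow_le_pow_left ?_ _
    rw [sz_pair, sz_pair, sz_nat, sz_nat, hM₀]
    have h1 : w + 1 ≤ 2 ^ w := Nat.lt_two_pow_self
    have h2 : 2 ^ (v + τ + w + 3) = 2 ^ v * 2 ^ τ * 2 ^ w * 8 := by
      rw [pow_add, pow_add, pow_add]; norm_num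
    have h3 : 1 ≤ 2 ^ v := Nat.one_le_two_pow
    have h4 : 1 ≤ 2 ^ τ := Nat.one_le_two_pow
    have h5 : 1 ≤ 2 ^ w := Nat.one_le_two_pow
    rw [pow_succ] at hsz
    obtain ⟨x, hx⟩ : ∃ x, x = 2 ^ v := ⟨_, rfl⟩
    obtain ⟨y, hy⟩ : ∃ y, y = 2 ^ τ := ⟨_, rfl⟩
    obtain ⟨z, hz⟩ : ∃ z, z = 2 ^ w := ⟨_, rfl⟩
    rw [h2, ← hx, ← hy, ← hz]
    rw [← hx] at h3
    rw [← hy] at h4 hsz
    rw [← hz] at h1 h5
    have h6 : x ≤ x * y * z := by
      calc x = x * 1 * 1 := by ring
        _ ≤ _ := Nat.mul_le_mul (Nat.mul_le_mul_left _ h4) h5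
    have h7 : y ≤ x * y * z := by
      calc y = 1 * y * 1 := by ring
        _ ≤ _ := Nat.mul_le_mul (Nat.mul_le_mul_right _ h3) h5
    have h8 : z ≤ x * y * z := by
      calc z = 1 * 1 * z := by ring
        _ ≤ _ := Nat.mul_le_mul_right _ (Nat.mul_le_mul h3 h4)
    omega
  have hWB : W * 2 ^ w ≤ 2 ^ B := by
    have h2 := hsz
    have h3 : W ≤ 2 ^ (g * (τ + 1)) := by
      calc W = (sz a + 2) ^ g := hW
        _ ≤ (2 ^ (τ + 1)) ^ g := Nat.pow_le_pow_left h2 g
        _ = 2 ^ (g * (τ + 1)) := by rw [← pow_mul]; ring_nf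
    calc W * 2 ^ w ≤ 2 ^ (g * (τ + 1)) * 2 ^ w := Nat.mul_le_mul_right _ h3
      _ = 2 ^ (g * (τ + 1) + w) := by rw [← pow_add]
      _ ≤ 2 ^ B := Nat.pow_le_pow_right (by omega) (by omega)
  have hLs : L a ≤ 2 * (sz a + (2 * (sz a + 2) ^ km + 1 + 1) + 1) + 1 := by
    have := hmk a
    simp only [L]
    omega
  have hqs : q a ≤ (2 * (sz a + (2 * (sz a + 2) ^ km + 1 + 1) + 1) + 1) ^ c + c :=
    Nat.add_le_add_right (Nat.pow_le_pow_left hLs c) c
  have hLW : L a ≤ W := by
    have := hg (sz a)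
    rw [hW]
    omega
  -- sizes of the queries and votes
  have hinsz : ∀ (r : Word) (l : List Bool), r.length ≤ m a → l.length ≤ 2 * q a →
      sz (cw a r, l) + 2 ≤ 2 * (2 * (sz a + (2 * (sz a + 2) ^ km + 1 + 1) + 1) + 1) +
        2 * (2 * ((2 * (sz a + (2 * (sz a + 2) ^ km + 1 + 1) + 1) + 1) ^ c + c)) + 1 + 2 := by
    intro r l hr hl
    have h1 := sz_word_le (cw a r)
    have h2 := hLcw a r hr
    have h3 := sz_word_le l
    rw [sz_pair]
    omega
  have hqW : ∀ (r : Word) (l : List Bool), r.length ≤ m a → l.length ≤ 2 * q a →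
      (query (cw a r, l)).length ≤ W := by
    intro r l hr hl
    have h1 := hkq (cw a r, l)
    have h2 := Nat.pow_le_pow_left (hinsz r l hr hl) kq
    have h3 := length_le_sz (query (cw a r, l))
    have h4 := hg (sz a)
    rw [hW]
    omega
  have hvW : ∀ (r : Word) (l : List Bool), r.length ≤ m a → l.length ≤ 2 * q a →
      6 * sz (vote (cw a r, l)) + 4 ≤ W := by
    intro r l hr hl
    have h1 := hkv (cw a r, l)
    have h2 := Nat.pow_le_pow_left (hinsz r l hr hl) kv
    have h4 := hg (sz a)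
    rw [hW]
    omega
  have hvB : ∀ (r : Word) (l : List Bool), r.length ≤ m a → l.length ≤ 2 * q a →
      ∀ v ∈ (vote (cw a r, l)).map (expand M₀ w), 6 * v.length + 4 ≤ 2 ^ B := by
    intro r l hr hl v hv
    obtain ⟨v', hv', rfl⟩ := List.mem_map.1 hv
    have h1 := hvW r l hr hl
    have h2 := (length_le_sz v').trans (sz_mem_le hv')
    have h3 := length_expand_le M₀ w v'
    have h4 : 1 ≤ 2 ^ w := Nat.one_le_two_pow
    calc 6 * (expand M₀ w v').length + 4 ≤ 6 * (v'.length * 2 ^ w) + 4 * 2 ^ w := by omega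
      _ = (6 * v'.length + 4) * 2 ^ w := by ring
      _ ≤ W * 2 ^ w := Nat.mul_le_mul_right _ (by omega)
      _ ≤ 2 ^ B := hWB
  -- the guesses
  have hwM : w ≤ (lg M).1 :=
    (Nat.pow_le_pow_iff_right (by norm_num)).1 (hMw.trans (le_lg M))
  have hvM : v ≤ (lg M).1 :=
    (Nat.pow_le_pow_iff_right (by norm_num)).1 (hMv.trans (le_lg M))
  refine List.mem_flatMap.2 ⟨w, List.mem_range.2 (Nat.lt_succ_of_le hwM),
    List.mem_flatMap.2 ⟨v, List.mem_range.2 (Nat.lt_succ_of_le hvM), ?_⟩⟩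
  simp only
  rw [hdbl]
  -- the words of `S`
  let Fs : Finset Word := (finite_words S W).toFinset
  have hFs : Fs.card ≤ 2 ^ (τ ^ cS) := by
    have h1 := hS W
    rw [Set.ncard_eq_toFinset_card _ (finite_words S W)] at h1
    exact h1.trans (Nat.pow_le_pow_right (by omega) hbS)
  -- the runs
  have hfull : ∀ r : Word, r.length ≤ m a → ∀ tr, Good (next (a, (M₀, w))) S (r, tr) →
      ∃ l, l = answers S (fun l => stop (cw a r, l)) (fun l => query (cw a r, l))
          ((cw a r).length ^ c + c) ∧ stop (cw a r, l) = true ∧ tr <+: l ∧ l.length ≤ q a ∧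
        turns (next (a, (M₀, w))) (r, l) ≤ w ∧
        (vote (cw a r, l)).length ≤ w ∧
        (∀ v ∈ vote (cw a r, l), ∀ e ∈ v, e.2.length ≤ w ∧ e.1.2.length ≤ w) ∧
        (cw a r ∈ A ↔ out ((cw a r, l),
          (vote (cw a r, l)).map fun v => decide (0 < votes S v)) = true) ∧
        (stop (cw a r, tr) = true → tr = l) := by
    intro r hr tr htr
    obtain ⟨l, hl, hstopl, hneg, hvl, hbl, hcor⟩ := hred (cw a r)
    have htr' := good_eq_answers (S := S) (stop := fun l => stop (cw a r, l))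
      (query := fun l => query (cw a r, l)) (fun _ => rfl) tr htr
    have hqr : (cw a r).length ^ c + c ≤ q a :=
      Nat.add_le_add_right (Nat.pow_le_pow_left (hLcw a r hr) c) c
    have hbw : bound t c (cw a r).length ≤ w := hbc _ ((hLcw a r hr).trans hLW)
    have hpre : tr <+: l := by
      rw [hl, htr']
      rcases le_total tr.length ((cw a r).length ^ c + c) with h | h
      · exact answers_prefix_le h
      · rw [answers_stable (by rw [← hl]; exact hstopl) _ h]
    have hgl : Good (next (a, (M₀, w))) S (r, l) := by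
      rw [hl]
      exact good_answers (fun _ => rfl) _
    refine ⟨l, hl, hstopl, hpre, ?_, ?_, hvl.trans hbw,
      fun v hv e he => ⟨(hbl v hv e he).1.trans hbw, (hbl v hv e he).2.trans hbw⟩, hcor, ?_⟩
    · rw [hl]
      exact (length_answers_le _).trans hqr
    · rw [turns_eq_noBlocks (fun _ => rfl) hgl]
      exact hneg.trans hbw
    · intro hst
      have hlen : tr.length ≤ (cw a r).length ^ c + c := by
        refine hpre.length_le.trans ?_
        rw [hl]; exact length_answers_le _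
      rw [hl]
      have h4 := answers_stable (S := S) (stop := fun l => stop (cw a r, l))
        (query := fun l => query (cw a r, l)) (n := tr.length) (by rw [← htr']; exact hst)
        _ hlen
      rw [h4, ← htr']
  have hgood : ∀ r : Word, r.length ≤ m a → ∀ tr, Good (next (a, (M₀, w))) S (r, tr) →
      tr.length ≤ q a ∧ turns (next (a, (M₀, w))) (r, tr) ≤ w := by
    intro r hr tr htr
    obtain ⟨l, _, _, hpre, hlq, hturns, _⟩ := hfull r hr tr htr
    exact ⟨hpre.length_le.trans hlq, (turns_mono (next := next (a, (M₀, w))) r hpre).trans hturns⟩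
  refine hc (a, (M₀, w)) M u hCsz hu ?_ ?_ ?_
  · -- few queries in `S`
    intro Ls hLs' hmemL
    have h1 : ∀ s ∈ Ls, s ∈ Fs := by
      intro s hs
      obtain ⟨hsS, r, tr, hr, hg1, hnx⟩ := hmemL s hs
      have h2 := (hgood r hr tr hg1).1
      have h3 : query (cw a r, tr) = s := (nxt_eq_some.1 hnx).2
      simp only [Fs, Set.Finite.mem_toFinset]
      exact ⟨hsS, by rw [← h3]; exact hqW r tr hr (by omega)⟩
    have h2 : Ls.length ≤ Fs.card := by
      rw [← List.toFinset_card_of_nodup hLs']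
      exact Finset.card_le_card fun s hs => h1 s (List.mem_toFinset.1 hs)
    have h3 : 2 ^ (τ ^ cS) ≤ M₀ := by
      refine (Nat.pow_le_pow_right (by omega) ?_).trans hM2
      have h4 : 1 ≤ nf w B * w := Nat.mul_pos (by omega) hw1
      calc τ ^ cS ≤ τ ^ cS + 1 := Nat.le_succ _
        _ ≤ _ := Nat.le_mul_of_pos_right _ h4
    show Ls.length < M₀ + 1
    omega
  · -- few bundles in `S`
    refine ⟨listsOf Fs (nf w B * w), ?_, ?_⟩
    · refine (card_listsOf_le _ _).trans (le_trans ?_ hM2)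
      rw [pow_mul 2]
      refine Nat.pow_le_pow_left ?_ _
      rw [pow_succ]
      have : 1 ≤ 2 ^ (τ ^ cS) := Nat.one_le_two_pow
      omega
    · intro r tr hr hg1 hnone e he
      right
      obtain ⟨e0, he0, rfl⟩ := List.mem_map.1 he
      have htrq := (hgood r hr tr hg1).1
      have htrq2 : ∀ a' : List Bool, a'.length ≤ 0 → (tr ++ a').length ≤ 2 * q a := by
        intro a' ha'
        rw [List.length_append]
        omega
      refine ⟨rfl, ?_⟩
      have hb := comp_bundles (M := M₀) (n := 0) (w := w) (B := B) (W := W)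
        (stop := fun a' => stop (cw a r, tr ++ a'))
        (query := fun a' => query (cw a r, tr ++ a'))
        (votes := fun a' => (vote (cw a r, tr ++ a')).map (expand M₀ w))
        (out := fun a' b => out ((cw a r, tr ++ a'), b)) hw1 (Nat.zero_le _)
        (fun a' ha' => hvB r (tr ++ a') hr (htrq2 a' ha'))
        (fun a' ha' => hqW r (tr ++ a') hr (htrq2 a' ha'))
        (by
          intro a' ha' v hv e' he' x hx
          have h1 := hvW r (tr ++ a') hr (htrq2 a' ha')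
          obtain ⟨v', hv', rfl⟩ := List.mem_map.1 hv
          obtain ⟨e1, he1, heq⟩ := mem_expand he'
          rw [heq] at hx
          have h2 := sz_mem_le hv'
          have h3 := sz_mem_le he1
          rw [sz_prod] at h3
          have h4 := sz_mem_le hx
          have h5 := length_le_sz x
          omega) e0 he0
      constructor
      · intro h
        refine mem_listsOf _ _ _ hb.1 fun x hx => ?_
        simp only [Fs, Set.Finite.mem_toFinset]
        exact ⟨h x hx, hb.2 x hx⟩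
      · intro h x hx
        have := of_mem_listsOf _ _ _ h x hx
        simp only [Fs, Set.Finite.mem_toFinset] at this
        exact this.1
  · -- the runs decide
    intro r hr tr htr
    obtain ⟨h1, h2⟩ := hgood r hr tr htr
    refine ⟨h1, h2, fun hnone => ?_⟩
    obtain ⟨l, hl, hstopl, hpre, hlq, hturns, hvl, hbl, hcor, hfin⟩ := hfull r hr tr htr
    have hst : stop (cw a r, tr) = true := nxt_eq_none.1 hnone
    have htrl := hfin hst
    subst htrl
    have hok : okv w ((vote (cw a r, tr ++ [])).map (expand M₀ w)) = true := by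
      rw [okv_iff, List.append_nil, List.length_map]
      refine ⟨hvl, fun v hv e he => ?_⟩
      obtain ⟨v', hv', rfl⟩ := List.mem_map.1 hv
      obtain ⟨e1, he1, heq⟩ := mem_expand he
      rw [heq]
      exact (hbl v' hv' e1 he1).1
    have h5 := comp_spec S (M := M₀) (n := 0) (w := w) (B := B)
      (stop := fun a' => stop (cw a r, tr ++ a'))
      (query := fun a' => query (cw a r, tr ++ a'))
      (votes := fun a' => (vote (cw a r, tr ++ a')).map (expand M₀ w))
      (out := fun a' b => out ((cw a r, tr ++ a'), b)) hB2 (Nat.zero_le _)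
      (fun a' ha' => hvB r (tr ++ a') hr (by
          rw [List.length_append]
          omega)) hM1 (a₀ := []) (by simp) (by simp [answers]) (by
        rw [valid_iff]
        exact ⟨by rw [List.append_nil]; exact hst, by simp⟩) hok
    show par r u = true ↔ 0 < MP_634427_lc.votes S (toVote (cmp (a, (M₀, w)) r tr))
    rw [votes_toVote]
    have h6 : 0 < sc S (cmp (a, (M₀, w)) r tr) ↔ cw a r ∈ A := by
      rw [hcor]
      refine h5.trans ?_
      have h7 : ((vote (cw a r, tr)).map (expand M₀ w)).map (fun v => decide (0 < sc S v)) =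
          (vote (cw a r, tr)).map fun v => decide (0 < votes S v) := by
        rw [List.map_map]
        refine List.map_congr_left fun v hv => ?_
        have h8 := sc_expand S (M := M₀) (w := w)
          ((Nat.pow_le_pow_right (by omega) hBw).trans hM1) (v := v)
          fun e he => (hbl v hv e he).2
        simp only [Function.comp]
        rw [h8]
      rw [List.append_nil, ← h7]
    rw [h6, hmem]
    constructor
    · intro h
      exact ⟨u, hu, hRu, h⟩
    · rintro ⟨u', h7, h8, h9⟩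
      rwa [huniq u' h7 h8] at h9

end Pool.Agent.Lib.MP_634427_lc.Votes
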