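import Pool.Agent.Lib.MP_634427_lc.Votes.Alg

/-!
# The factors of a vote
-/

namespace Pool.Agent.Lib.MP_634427_lc.Votes

open BT

/-- powers of two with a cap -/
def dbl (M j : ℕ) : ℕ := Nat.rec (motive := fun _ => ℕ) 1 (fun _ r => min (2 * r) M) j

lemma dbl_succ (M j : ℕ) : dbl M (j + 1) = min (2 * dbl M j) M := rfl

lemma dbl_eq {M j : ℕ} (h : 2 ^ j ≤ M) : dbl M j = 2 ^ j := by
  induction j with
  | zero => rfl
  | succ j ih =>
    have h1 : 2 ^ j ≤ M := le_trans (Nat.pow_le_pow_right (by omega) (by omega)) h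
    rw [dbl_succ, ih h1]
    rw [pow_succ] at h ⊢
    rw [Nat.min_eq_left (by omega)]
    ring

lemma dbl_le (M j : ℕ) : dbl M j ≤ M + 1 := by
  cases j with
  | zero => simp [dbl]
  | succ j => rw [dbl_succ]; exact (Nat.min_le_right _ _).trans (Nat.le_succ _)

/-- the powers of two up to about `2 * Z` -/
def pws (Z : ℕ) : List ℕ := (List.range ((lg Z).1 + 1)).map (dbl (2 * Z + 1))

lemma pws_eq (Z : ℕ) : pws Z = (List.range ((lg Z).1 + 1)).map (2 ^ ·) := by
  unfold pws
  refine List.map_congr_left fun j hj => ?_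
  rw [List.mem_range] at hj
  exact dbl_eq ((Nat.pow_le_pow_right (by omega) (by omega)).trans (lg_le Z))

lemma length_pws (Z : ℕ) : (pws Z).length = (lg Z).1 + 1 := by simp [pws]

lemma mem_pws {Z p : ℕ} (h : p ∈ pws Z) : 1 ≤ p ∧ p ≤ 2 * Z + 1 := by
  rw [pws_eq] at h
  obtain ⟨j, hj, rfl⟩ := List.mem_map.1 h
  rw [List.mem_range] at hj
  exact ⟨Nat.one_le_two_pow, (Nat.pow_le_pow_right (by omega) (by omega)).trans (lg_le Z)⟩

lemma exists_pws {Z z : ℕ} (h1 : 1 ≤ z) (h2 : z ≤ Z) : ∃ p ∈ pws Z, z ≤ p ∧ p ≤ 2 * z := by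
  rw [pws_eq]
  refine ⟨2 ^ Nat.clog 2 z, List.mem_map.2 ⟨Nat.clog 2 z, ?_, rfl⟩, Nat.le_pow_clog (by norm_num) z,
    ?_⟩
  · rw [List.mem_range]
    exact Nat.lt_succ_of_le (Nat.clog_le_of_le_pow (h2.trans (le_lg Z)))
  · rcases Nat.lt_or_ge 1 z with h | h
    · have h3 := Nat.pow_pred_clog_lt_self (b := 2) (by norm_num) h
      have h4 : 0 < Nat.clog 2 z := Nat.clog_pos (by norm_num) h
      obtain ⟨k, hk⟩ : ∃ k, Nat.clog 2 z = k + 1 := ⟨Nat.clog 2 z - 1, by omega⟩
      rw [hk] at h3 ⊢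
      simp only [Nat.pred_succ] at h3
      rw [pow_succ]; omega
    · have : z = 1 := by omega
      subst this
      simp

/-- the product of the squares -/
def sqp (z : ℤ) (l : List ℕ) : ℤ := (l.map fun p : ℕ => (z + (p : ℤ)) ^ 2).prod

/-- the product of the squares -/
def sqm (z : ℤ) (l : List ℕ) : ℤ := (l.map fun p : ℕ => (z - (p : ℤ)) ^ 2).prod

lemma sq_bounds {z : ℤ} (hz : 0 < z) (l : List ℕ) :
    0 < sqp z l ∧ 0 ≤ sqm z l ∧ sqm z l ≤ sqp z l ∧
      ((∃ p ∈ l, z ≤ (p : ℤ) ∧ (p : ℤ) ≤ 2 * z) → 9 * sqm z l ≤ sqp z l) := by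
  induction l with
  | nil => simp [sqp, sqm]
  | cons p l ih =>
    obtain ⟨h1, h2, h3, h4⟩ := ih
    have e1 : sqp z (p :: l) = (z + p) ^ 2 * sqp z l := by simp [sqp]
    have e2 : sqm z (p :: l) = (z - p) ^ 2 * sqm z l := by simp [sqm]
    have hp : (0 : ℤ) ≤ p := by positivity
    have h5 : 0 < (z + (p : ℤ)) ^ 2 := by positivity
    have h6 : (z - (p : ℤ)) ^ 2 ≤ (z + p) ^ 2 := by nlinarith
    have h7 : 0 ≤ (z - (p : ℤ)) ^ 2 := sq_nonneg _
    rw [e1, e2]
    refine ⟨mul_pos h5 h1, mul_nonneg h7 h2, mul_le_mul h6 h3 h2 h5.le, ?_⟩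
    rintro ⟨p', hp', h8, h9⟩
    rcases List.mem_cons.1 hp' with rfl | hp'
    · have h10 : 9 * (z - (p' : ℤ)) ^ 2 ≤ (z + p') ^ 2 := by
        have h11 : 0 ≤ (p' : ℤ) - z := by linarith
        have h12 : 3 * ((p' : ℤ) - z) ≤ z + p' := by linarith
        have h13 : (3 * ((p' : ℤ) - z)) ^ 2 ≤ (z + p') ^ 2 := pow_le_pow_left₀ (by linarith) h12 2
        calc 9 * (z - (p' : ℤ)) ^ 2 = (3 * ((p' : ℤ) - z)) ^ 2 := by ring
          _ ≤ _ := h13
      calc 9 * ((z - (p' : ℤ)) ^ 2 * sqm z l) = (9 * (z - (p' : ℤ)) ^ 2) * sqm z l := by ring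
        _ ≤ (z + p') ^ 2 * sqp z l := mul_le_mul h10 h3 h2 h5.le
    · have h10 := h4 ⟨p', hp', h8, h9⟩
      calc 9 * ((z - (p : ℤ)) ^ 2 * sqm z l) = (z - (p : ℤ)) ^ 2 * (9 * sqm z l) := by ring
        _ ≤ (z + p) ^ 2 * sqp z l := mul_le_mul h6 h10 (by linarith) h5.le

/-- one factor of a vote -/
def vfac (v : Vec) (β : Bool) (p : ℕ) : Vec :=
  (v ++ v ++ [(false, [])]) ++ List.replicate p (β, [])

lemma length_vfac (v : Vec) (β : Bool) (p : ℕ) : (vfac v β p).length = 2 * v.length + 1 + p := by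
  simp [vfac]; omega

lemma sc_vfac (S : Set Word) (v : Vec) (β : Bool) (p : ℕ) :
    sc S (vfac v β p) = 2 * sc S v - 1 + sgn β * p := by
  rw [vfac, sc_append, sc_append, sc_append, sc_replicate, sc_cons, sc_nil]
  simp [sgn]
  ring

/-- all factors of a vote -/
def facs (K : ℕ) (v : Vec) (β : Bool) : List Vec :=
  (List.range (2 * K)).flatMap fun _ => (pws (2 * v.length + 1)).map (vfac v β)

lemma length_facs (K : ℕ) (v : Vec) (β : Bool) :
    (facs K v β).length = 2 * K * ((lg (2 * v.length + 1)).1 + 1) := by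
  have : ∀ n, ((List.range n).flatMap fun _ => (pws (2 * v.length + 1)).map (vfac v β)).length =
      n * ((lg (2 * v.length + 1)).1 + 1) := by
    intro n
    induction n with
    | zero => simp
    | succ n ih =>
      rw [List.range_succ, List.flatMap_append, List.length_append, ih, List.flatMap_singleton,
        List.length_map, length_pws]
      ring
  exact this _

lemma mem_facs {K : ℕ} {v : Vec} {β : Bool} {w : Vec} (h : w ∈ facs K v β) :
    ∃ p ∈ pws (2 * v.length + 1), w = vfac v β p := by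
  simp only [facs, List.mem_flatMap, List.mem_map] at h
  obtain ⟨_, _, p, hp, rfl⟩ := h
  exact ⟨p, hp, rfl⟩

/-- the value of the factors of a vote -/
noncomputable def val (S : Set Word) (K : ℕ) (v : Vec) (β : Bool) : ℤ :=
  ((facs K v β).map (sc S)).prod

lemma val_eq (S : Set Word) (K : ℕ) (v : Vec) (β : Bool) :
    val S K v β = (((pws (2 * v.length + 1)).map fun p : ℕ =>
      (2 * sc S v - 1 + sgn β * (p : ℤ))).prod ^ 2) ^ K := by
  have : ∀ n, (((List.range n).flatMap fun _ => (pws (2 * v.length + 1)).map (vfac v β)).map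
      (sc S)).prod = ((pws (2 * v.length + 1)).map fun p : ℕ =>
        (2 * sc S v - 1 + sgn β * (p : ℤ))).prod ^ n := by
    intro n
    induction n with
    | zero => simp
    | succ n ih =>
      rw [List.range_succ, List.flatMap_append, List.map_append, List.prod_append, ih,
        List.flatMap_singleton, List.map_map, pow_succ]
      congr 1
      congr 1
      exact List.map_congr_left fun p _ => sc_vfac S v β p
  rw [val, facs, this, pow_mul]

lemma list_prod_sq (l : List ℕ) (f : ℕ → ℤ) :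
    ((l.map f).prod) ^ 2 = (l.map fun p => f p ^ 2).prod := by
  induction l with
  | nil => simp
  | cons a l ih => simp only [List.map_cons, List.prod_cons, mul_pow, ih]

lemma val_nonneg (S : Set Word) (K : ℕ) (v : Vec) (β : Bool) : 0 ≤ val S K v β := by
  rw [val_eq]; positivity

lemma dom_val (S : Set Word) (K : ℕ) (v : Vec) :
    Dom (9 ^ K) (val S K v) (open Classical in decide (0 < sc S v)) := by
  classical
  set z : ℤ := 2 * sc S v - 1 with hz
  set l := pws (2 * v.length + 1) with hl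
  have habs := abs_le.1 (abs_sc_le S v)
  have hcast : (((2 * v.length + 1 : ℕ)) : ℤ) = 2 * (v.length : ℤ) + 1 := by push_cast; ring
  by_cases hpos : 0 < sc S v
  · have h0 : decide (0 < sc S v) = true := by simp [hpos]
    rw [h0]
    have hz0 : 0 < z := by omega
    obtain ⟨h1, h2, h3, h4⟩ := sq_bounds hz0 l
    have hex : ∃ p ∈ l, z ≤ (p : ℤ) ∧ (p : ℤ) ≤ 2 * z := by
      obtain ⟨p, hp, h5, h6⟩ := exists_pws (Z := 2 * v.length + 1) (z := z.toNat) (by omega)
        (by omega)
      exact ⟨p, hp, by omega, by omega⟩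
    have h5 := h4 hex
    have e1 : val S K v true = sqp z l ^ K := by
      rw [val_eq, list_prod_sq]; simp [sgn, sqp, hz, hl]
    have e2 : val S K v false = sqm z l ^ K := by
      rw [val_eq, list_prod_sq]; simp [sgn, sqm, hz, hl, sub_eq_add_neg]
    refine ⟨by rw [e1]; positivity, val_nonneg _ _ _ _, ?_⟩
    simp only [Bool.not_true]
    rw [e1, e2]
    push_cast
    rw [← mul_pow]
    exact pow_le_pow_left₀ (by linarith) h5 K
  · have h0 : decide (0 < sc S v) = false := by simp [hpos]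
    rw [h0]
    have hz0 : 0 < -z := by omega
    obtain ⟨h1, h2, h3, h4⟩ := sq_bounds hz0 l
    have hex : ∃ p ∈ l, -z ≤ (p : ℤ) ∧ (p : ℤ) ≤ 2 * -z := by
      obtain ⟨p, hp, h5, h6⟩ := exists_pws (Z := 2 * v.length + 1) (z := (-z).toNat) (by omega)
        (by omega)
      exact ⟨p, hp, by omega, by omega⟩
    have h5 := h4 hex
    have e1 : val S K v false = sqp (-z) l ^ K := by
      rw [val_eq, list_prod_sq, sqp]
      congr 2
      refine List.map_congr_left fun p _ => ?_
      simp [sgn]; ring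
    have e2 : val S K v true = sqm (-z) l ^ K := by
      rw [val_eq, list_prod_sq, sqm]
      congr 2
      refine List.map_congr_left fun p _ => ?_
      simp [sgn]; ring
    refine ⟨by rw [e1]; positivity, val_nonneg _ _ _ _, ?_⟩
    simp only [Bool.not_false]
    rw [e1, e2]
    push_cast
    rw [← mul_pow]
    exact pow_le_pow_left₀ (by linarith) h5 K

lemma two_mul_le_nine_pow (K : ℕ) : 2 * K ≤ 9 ^ K := by
  induction K with
  | zero => simp
  | succ K ih =>
    rw [pow_succ]
    have : 1 ≤ 9 ^ K := Nat.one_le_pow _ _ (by norm_num)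
    omega

/-- the values of a list of votes -/
lemma forall₂_val (S : Set Word) (K : ℕ) (vs : List Vec) :
    List.Forall₂ (fun A β => Dom (9 ^ K) A β) (vs.map (val S K))
      (vs.map fun v => open Classical in decide (0 < sc S v)) := by
  induction vs with
  | nil => simp
  | cons v vs ih => exact List.Forall₂.cons (dom_val S K v) ih

end Pool.Agent.Lib.MP_634427_lc.Votes
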